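import Pool.Agent.K7.H1.DL.Defs

/-!
# The comparison isomorphism of a critical motive
-/

set_option autoImplicit false

namespace Pool.Agent.K7.H1.DL

open scoped TensorProduct
open Module

/-- the sign of a boolean -/
def sg (δ : Bool) : ℚ := if δ then 1 else -1

lemma sg_mul_self (δ : Bool) : sg δ * sg δ = 1 := by cases δ <;> simp [sg]

lemma sg_ne (δ : Bool) : sg δ ≠ 0 := by cases δ <;> simp [sg]

section betti

variable (M : Motive)

lemma fC_fC (x : ℂ ⊗[ℚ] M.B) : M.frob.baseChange ℂ (M.frob.baseChange ℂ x) = x := by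
  induction x using TensorProduct.induction_on with
  | zero => simp
  | tmul z b => simp [M.frob_frob]
  | add a b ha hb => rw [map_add, map_add, ha, hb]

/-- the step `F^0` of the Hodge filtration -/
noncomputable def F0 : Submodule ℂ (ℂ ⊗[ℚ] M.B) := ⨆ q : {q : ℤ // 0 ≤ q}, M.H q

/-- the complement of `F^0` -/
noncomputable def F1 : Submodule ℂ (ℂ ⊗[ℚ] M.B) := ⨆ q : {q : ℤ // q < 0}, M.H q

lemma ker_mkQ_baseChange {V : Type} [AddCommGroup V] [Module ℚ V] (W : Submodule ℚ V) :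
    LinearMap.ker (W.mkQ.baseChange ℂ) = W.baseChange ℂ := by
  have h := lTensor_exact ℂ (LinearMap.exact_subtype_mkQ W) (Submodule.mkQ_surjective W)
  ext x
  rw [LinearMap.mem_ker]
  have h1 : W.mkQ.baseChange ℂ x = W.mkQ.lTensor ℂ x := by
    rw [← LinearMap.baseChange_eq_ltensor]
  rw [h1, h x]
  rfl

lemma ker_IT : LinearMap.ker M.IT = F0 M := by
  rw [Motive.IT, LinearMap.ker_comp, ker_mkQ_baseChange, ← M.I_fil 0]
  exact Submodule.comap_map_eq_of_injective M.I.injective _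

lemma F0_F1 : Disjoint (F0 M) (F1 M) := by
  have h := M.internal.submodule_iSupIndep
  have h1 : Disjoint {q : ℤ | 0 ≤ q} {q : ℤ | q < 0} := by
    rw [Set.disjoint_left]
    intro q hq hq'
    simp only [Set.mem_ofPred_eq] at hq hq'
    omega
  have h2 := h.disjoint_biSup_biSup h1
  have h3 : F0 M = ⨆ q ∈ {q : ℤ | 0 ≤ q}, M.H q := iSup_subtype' (f := fun q _ => M.H q) ▸ rfl
  have h4 : F1 M = ⨆ q ∈ {q : ℤ | q < 0}, M.H q := iSup_subtype' (f := fun q _ => M.H q) ▸ rfl
  rw [h3, h4]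
  exact h2

variable {M} (hM : M.Critical)

include hM

lemma frob_F0 {x : ℂ ⊗[ℚ] M.B} (hx : x ∈ F0 M) : M.frob.baseChange ℂ x ∈ F1 M := by
  have h : F0 M ≤ (F1 M).comap (M.frob.baseChange ℂ) := by
    refine iSup_le fun q => ?_
    intro y hy
    rw [Submodule.mem_comap]
    by_cases hq : M.H q = ⊥
    · rw [hq, Submodule.mem_bot] at hy
      rw [hy, map_zero]
      exact zero_mem _
    · have h1 := (hM.critical q hq).1
      have h2 : M.w - (q : ℤ) < 0 := by
        have := q.2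
        rcases min_le_iff.mp h1 with h | h
        · omega
        · omega
      exact Submodule.mem_iSup_of_mem (⟨M.w - q, h2⟩ : {q : ℤ // q < 0}) (M.H_frob q y hy)
  exact h hx

lemma F0_sup : F0 M ⊔ (F0 M).map (M.frob.baseChange ℂ) = ⊤ := by
  rw [eq_top_iff, ← M.internal.submodule_iSup_eq_top]
  refine iSup_le fun q => ?_
  intro y hy
  by_cases hq : M.H q = ⊥
  · rw [hq, Submodule.mem_bot] at hy
    rw [hy]
    exact zero_mem _
  by_cases h0 : 0 ≤ q
  · exact Submodule.mem_sup_left (Submodule.mem_iSup_of_mem (⟨q, h0⟩ : {q : ℤ // 0 ≤ q}) hy)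
  · refine Submodule.mem_sup_right ⟨M.frob.baseChange ℂ y, ?_, fC_fC M y⟩
    have h1 := (hM.critical q hq).2
    have h2 : 0 ≤ M.w - q := by
      rcases le_max_iff.mp h1 with h | h
      · exact absurd h h0
      · exact h
    exact Submodule.mem_iSup_of_mem (⟨M.w - q, h2⟩ : {q : ℤ // 0 ≤ q}) (M.H_frob q y hy)

lemma two_finrank : finrank ℚ M.B = 2 * finrank ℚ M.T := by
  have hd : Disjoint (F0 M) ((F0 M).map (M.frob.baseChange ℂ)) := by
    refine (F0_F1 M).mono_right ?_
    rintro _ ⟨y, hy, rfl⟩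
    exact frob_F0 hM hy
  have h1 := Submodule.finrank_sup_add_finrank_inf_eq (F0 M) ((F0 M).map (M.frob.baseChange ℂ))
  rw [F0_sup hM, hd.eq_bot, finrank_bot, finrank_top, add_zero] at h1
  have hinj : Function.Injective (M.frob.baseChange ℂ) := fun a b hab => by
    rw [← fC_fC M a, hab, fC_fC M b]
  rw [← (Submodule.equivMapOfInjective _ hinj (F0 M)).finrank_eq] at h1
  have h2 := LinearMap.finrank_range_add_finrank_ker M.IT
  rw [ker_IT] at h2
  have h3 : LinearMap.range M.IT = ⊤ := by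
    rw [Motive.IT, LinearMap.range_comp, LinearEquiv.range, Submodule.map_top,
      LinearMap.range_eq_top]
    exact LinearMap.baseChange_surjective ℂ (Submodule.mkQ_surjective _)
  rw [h3, finrank_top] at h2
  rw [finrank_baseChange] at h1 h2
  rw [finrank_baseChange] at h2
  omega

lemma indep_IT (δ : Bool) {κ : Type} [Fintype κ] {b : κ → M.B} (hb : LinearIndependent ℚ b)
    (he : ∀ k, M.frob (b k) = sg δ • b k) :
    LinearIndependent ℂ (fun k => M.IT ((1 : ℂ) ⊗ₜ[ℚ] b k)) := by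
  have h1 : LinearIndependent ℂ (fun k => (1 : ℂ) ⊗ₜ[ℚ] b k) := Module.Flat.linearIndependent_one_tmul hb
  rw [Fintype.linearIndependent_iff] at h1 ⊢
  intro d hd
  refine h1 d ?_
  set y : ℂ ⊗[ℚ] M.B := ∑ k, d k • ((1 : ℂ) ⊗ₜ[ℚ] b k) with hy
  have h2 : M.IT y = 0 := by
    rw [hy, map_sum]
    simpa only [map_smul] using hd
  have h3 : y ∈ F0 M := by
    rw [← ker_IT, LinearMap.mem_ker]
    exact h2
  have h4 : M.frob.baseChange ℂ y = ((sg δ : ℚ) : ℂ) • y := by
    rw [hy, map_sum, Finset.smul_sum]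
    refine Finset.sum_congr rfl fun k _ => ?_
    rw [map_smul, LinearMap.baseChange_tmul, he, smul_comm]
    congr 1
    rw [TensorProduct.tmul_smul, TensorProduct.smul_tmul', TensorProduct.smul_tmul']
    rw [Algebra.smul_def, smul_eq_mul]
    rfl
  have h5 : y ∈ F1 M := by
    have h6 := frob_F0 hM h3
    rw [h4] at h6
    have h7 : (((sg δ : ℚ) : ℂ)⁻¹) • ((sg δ : ℚ) : ℂ) • y = y := by
      rw [smul_smul, inv_mul_cancel₀, one_smul]
      exact_mod_cast sg_ne δ
    rw [← h7]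
    exact Submodule.smul_mem _ _ h6
  exact Submodule.disjoint_def.mp (F0_F1 M) y h3 h5

omit hM in
/-- the eigenspaces of `F_∞` -/
def Bs (M : Motive) (δ : Bool) : Submodule ℚ M.B := LinearMap.ker (M.frob - sg δ • LinearMap.id)

omit hM in
lemma mem_Bs {δ : Bool} {x : M.B} : x ∈ Bs M δ ↔ M.frob x = sg δ • x := by
  rw [Bs, LinearMap.mem_ker, LinearMap.sub_apply, LinearMap.smul_apply, LinearMap.id_apply,
    sub_eq_zero]

omit hM in
lemma Bs_sup : Bs M true ⊔ Bs M false = ⊤ := by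
  rw [eq_top_iff]
  intro x _
  have h1 : x = (1 / 2 : ℚ) • (x + M.frob x) + (1 / 2 : ℚ) • (x - M.frob x) := by
    rw [← smul_add]
    have : x + M.frob x + (x - M.frob x) = (2 : ℚ) • x := by rw [two_smul]; abel
    rw [this, smul_smul]
    norm_num
  rw [h1]
  refine Submodule.add_mem_sup (Submodule.smul_mem _ _ ?_) (Submodule.smul_mem _ _ ?_)
  · rw [mem_Bs, map_add, M.frob_frob]
    simp [sg, add_comm]
  · rw [mem_Bs, map_sub, M.frob_frob]
    simp [sg]

lemma Bs_le (δ : Bool) : finrank ℚ (Bs M δ) ≤ finrank ℚ M.T := by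
  have h1 : LinearIndependent ℚ (fun k => ((finBasis ℚ (Bs M δ) k : Bs M δ) : M.B)) :=
    (finBasis ℚ (Bs M δ)).linearIndependent.map' (Bs M δ).subtype (Submodule.ker_subtype _)
  have h2 := indep_IT hM δ h1 (fun k => mem_Bs.mp (finBasis ℚ (Bs M δ) k).2)
  have h3 := h2.fintype_card_le_finrank
  rwa [Fintype.card_fin, finrank_baseChange] at h3

lemma Bs_eq (δ : Bool) : finrank ℚ (Bs M δ) = finrank ℚ M.T := by
  have h1 := Submodule.finrank_sup_add_finrank_inf_eq (Bs M true) (Bs M false)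
  rw [Bs_sup, finrank_top, two_finrank hM] at h1
  have h2 := Bs_le hM true
  have h3 := Bs_le hM false
  cases δ
  · omega
  · omega

/-- **The comparison isomorphism on the eigenspaces of `F_∞`.** -/
theorem betti : ∃ (h : ℕ) (t : Basis (Fin h) ℚ M.T) (b : Basis (Bool × Fin h) ℚ M.B),
    (∀ δ k, M.frob (b (δ, k)) = sg δ • b (δ, k)) ∧
    ∀ δ, ((t.baseChange ℂ).toMatrix (fun k => M.IT ((1 : ℂ) ⊗ₜ[ℚ] b (δ, k)))).det ≠ 0 := by
  let h := finrank ℚ M.T
  let t := finBasis ℚ M.T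
  let bs : (δ : Bool) → Basis (Fin h) ℚ (Bs M δ) := fun δ => finBasisOfFinrankEq ℚ _ (Bs_eq hM δ)
  let v : Bool × Fin h → M.B := fun p => ((bs p.1 p.2 : Bs M p.1) : M.B)
  have hspan : ⊤ ≤ Submodule.span ℚ (Set.range v) := by
    have h1 : ∀ δ, Bs M δ ≤ Submodule.span ℚ (Set.range v) := by
      intro δ x hx
      have h2 : x = ∑ k, (bs δ).repr ⟨x, hx⟩ k • v (δ, k) := by
        have h3 := congrArg (Bs M δ).subtype ((bs δ).sum_repr ⟨x, hx⟩)
        rw [map_sum] at h3
        exact h3.symm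
      rw [h2]
      exact Submodule.sum_mem _ fun k _ => Submodule.smul_mem _ _ (Submodule.subset_span ⟨_, rfl⟩)
    rw [← Bs_sup (M := M)]
    exact sup_le (h1 true) (h1 false)
  have hcard : Fintype.card (Bool × Fin h) = finrank ℚ M.B := by
    rw [Fintype.card_prod, Fintype.card_bool, Fintype.card_fin, two_finrank hM]
  let b := basisOfTopLeSpanOfCardEqFinrank v hspan hcard
  have hb : ∀ p, b p = v p := fun p => by rw [coe_basisOfTopLeSpanOfCardEqFinrank]
  have hfrob : ∀ δ k, M.frob (b (δ, k)) = sg δ • b (δ, k) := by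
    intro δ k
    rw [hb]
    exact mem_Bs.mp (bs δ k).2
  refine ⟨h, t, b, hfrob, fun δ => ?_⟩
  have h1 : LinearIndependent ℚ (fun k => b (δ, k)) :=
    b.linearIndependent.comp _ (Prod.mk_right_injective δ)
  have h2 := indep_IT hM δ h1 (hfrob δ)
  have h3 : Submodule.span ℂ (Set.range fun k => M.IT ((1 : ℂ) ⊗ₜ[ℚ] b (δ, k))) = ⊤ := by
    refine h2.span_eq_top_of_card_eq_finrank' ?_
    rw [Fintype.card_fin, finrank_baseChange]
  have h4 := ((t.baseChange ℂ).is_basis_iff_det).mp ⟨h2, h3⟩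
  rw [Basis.det_apply] at h4
  exact h4.ne_zero

end betti

end Pool.Agent.K7.H1.DL
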