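import Pool.Agent.K7.H1.DL.Final
import Pool.Agent.R389.TwoMain
import Pool.Agent.R389.SmallMain

/-!
# Deligne's conjecture for `M ⊗ ρ`: from periods to characters and back
-/

set_option autoImplicit false
set_option linter.unusedSectionVars false

namespace Pool.Agent.K7.H1.DL

open scoped TensorProduct
open Module Filter Topology
open Pool.Agent.H541R3.ART Pool.Agent.R389 Pool.Agent.W446.AS

section

variable {F : Type} [Field F] [NumberField F] [IsGalois ℚ F]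

/-- complex conjugation is an involution -/
lemma c_sq {ι : F →+* ℂ} {c : F ≃ₐ[ℚ] F} (hc : ∀ x, ι (c x) = starRingEnd ℂ (ι x)) : c * c = 1 := by
  ext x
  apply ι.injective
  change ι (c (c x)) = ι x
  rw [hc, hc, Complex.conj_conj]

/-- the conclusion of Deligne's conjecture for all periods of `M ⊗ ρ` -/
def DeligneAll {E : Type} [Field E] [CharZero E] (M : Motive) (ι : F →+* ℂ) (c : F ≃ₐ[ℚ] F)
    (L : ((F ≃ₐ[ℚ] F) → ℂ) → ℂ → ℂ) {n : ℕ} (ρ : Representation E (F ≃ₐ[ℚ] F) (Fin n → E)) : Prop :=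
  (∃ x, IsPeriod M ι c ρ x) ∧ ∀ x, IsPeriod M ι c ρ x →
    ∃ e : E, ∀ (τ : E →+* ℂ) (m : ((F ≃ₐ[ℚ] F) → ℂ) → ℕ),
      IsDecomp (fun g => τ (ρ.character g)) m →
      Tendsto (fun s => ∏ᶠ χ ∈ Irr (F ≃ₐ[ℚ] F), L χ s ^ m χ) (𝓝[≠] 0) (𝓝 (τ e * x τ))

variable {E : Type} [Field E] [NumberField E] {M : Motive} {h : ℕ} {t : Basis (Fin h) ℚ M.T}
  {b : Basis (Bool × Fin h) ℚ M.B} {ι : F →+* ℂ} {c : F ≃ₐ[ℚ] F}
  {L : ((F ≃ₐ[ℚ] F) → ℂ) → ℂ → ℂ} {n : ℕ} {ζ : E}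

/-- from periods to characters -/
theorem to_deligne (hb : ∀ δ k, M.frob (b (δ, k)) = sg δ • b (δ, k))
    (hdet : ∀ δ, cM M t b δ ≠ 0) (hc : c * c = 1)
    (hζ : IsPrimitiveRoot ζ (Monoid.exponent (F ≃ₐ[ℚ] F)))
    {ρ : Representation E (F ≃ₐ[ℚ] F) (Fin n → E)} (hD : DeligneFor M ι c L ρ) :
    Deligne (fun _ => L) (PP (cM M t b true) (cM M t b false) h ι c) 0 ρ.character := by
  obtain ⟨τ₀⟩ : Nonempty (E →+* ℂ) := inferInstance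
  obtain ⟨np, nm, D, hDl, hD0, h1, h2, -, h3⟩ := periods (t := t) hb hc τ₀ ι ρ
  obtain ⟨x, hx, e, he⟩ := hD
  obtain ⟨e₁, -, h4⟩ := h3 x hx
  obtain ⟨e₂, he₂, h5⟩ := prod_PP hζ hc ι τ₀ (cM M t b true) (cM M t b false) h ρ hDl hD0 h1 h2
  refine ⟨e * e₁ * e₂⁻¹, fun τ m hm => ?_⟩
  have h6 := he τ m hm
  rw [h4 τ] at h6
  rw [h5 τ m hm]
  have h7 : τ (e * e₁ * e₂⁻¹) * (τ e₂ * XX (cM M t b true) (cM M t b false) h np nm ι D τ)
      = τ e * (τ e₁ * XX (cM M t b true) (cM M t b false) h np nm ι D τ) := by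
    have h8 : τ e₂ ≠ 0 := (map_ne_zero τ).mpr he₂
    rw [map_mul, map_mul, map_inv₀]
    field_simp
  rw [h7]
  exact h6

/-- from characters to periods -/
theorem of_deligne (hb : ∀ δ k, M.frob (b (δ, k)) = sg δ • b (δ, k)) (hc : c * c = 1)
    (hζ : IsPrimitiveRoot ζ (Monoid.exponent (F ≃ₐ[ℚ] F)))
    {ρ : Representation E (F ≃ₐ[ℚ] F) (Fin n → E)}
    (hD : Deligne (fun _ => L) (PP (cM M t b true) (cM M t b false) h ι c) 0 ρ.character) :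
    DeligneAll M ι c L ρ := by
  obtain ⟨τ₀⟩ : Nonempty (E →+* ℂ) := inferInstance
  obtain ⟨np, nm, D, hDl, hD0, h1, h2, hex, h3⟩ := periods (t := t) hb hc τ₀ ι ρ
  refine ⟨hex, fun x hx => ?_⟩
  obtain ⟨e, he⟩ := hD
  obtain ⟨e₁, he₁, h4⟩ := h3 x hx
  obtain ⟨e₂, -, h5⟩ := prod_PP hζ hc ι τ₀ (cM M t b true) (cM M t b false) h ρ hDl hD0 h1 h2
  refine ⟨e * e₂ * e₁⁻¹, fun τ m hm => ?_⟩
  have h6 := he τ m hm
  rw [h5 τ m hm] at h6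
  rw [h4 τ]
  have h7 : τ (e * e₂ * e₁⁻¹) * (τ e₁ * XX (cM M t b true) (cM M t b false) h np nm ι D τ)
      = τ e * (τ e₂ * XX (cM M t b true) (cM M t b false) h np nm ι D τ) := by
    have h8 : τ e₁ ≠ 0 := (map_ne_zero τ).mpr he₁
    rw [map_mul, map_mul, map_inv₀]
    field_simp
  rw [h7]
  exact h6

/-- from characters to periods, rational coefficients -/
theorem of_deligne_rat (hb : ∀ δ k, M.frob (b (δ, k)) = sg δ • b (δ, k))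
    (hdet : ∀ δ, cM M t b δ ≠ 0) (hc : c * c = 1)
    (hζ : IsPrimitiveRoot ζ (Monoid.exponent (F ≃ₐ[ℚ] F)))
    {ρ : Representation ℚ (F ≃ₐ[ℚ] F) (Fin n → ℚ)} {m : ((F ≃ₐ[ℚ] F) → ℂ) → ℕ}
    (hm : IsDecomp (fun g => ((ρ.character g : ℚ) : ℂ)) m)
    (hD : Deligne (fun _ => L) (PP (E := E) (cM M t b true) (cM M t b false) h ι c) 0
      (fun g => algebraMap ℚ E (ρ.character g))) :
    (∃ x, IsPeriod M ι c ρ x) ∧ ∀ x, IsPeriod M ι c ρ x → ∃ q : ℚ,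
      Tendsto (fun s => ∏ᶠ χ ∈ Irr (F ≃ₐ[ℚ] F), L χ s ^ m χ) (𝓝[≠] 0)
        (𝓝 (q * x (algebraMap ℚ ℂ))) := by
  obtain ⟨τ₀⟩ : Nonempty (E →+* ℂ) := inferInstance
  obtain ⟨np, nm, D, hDl, hD0, h1, h2, hex, h3⟩ := periods (t := t) hb hc (algebraMap ℚ ℂ) ι ρ
  refine ⟨hex, fun x hx => ?_⟩
  obtain ⟨e, he⟩ := hD
  obtain ⟨e₁, he₁, h4⟩ := h3 x hx
  obtain ⟨e₂, -, h5⟩ := prod_PP_rat (E := E) hζ hc ι τ₀ (cM M t b true) (cM M t b false) h ρ hDl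
    hD0 h1 h2
  have hX := XX_ne (hdet true) (hdet false) h np nm ι hDl hD0 (algebraMap ℚ ℂ)
  set X : ℂ := XX (cM M t b true) (cM M t b false) h np nm ι D (algebraMap ℚ ℂ) with hXd
  have hF : ∀ τ : E →+* ℂ, (fun g => τ (algebraMap ℚ E (ρ.character g)))
      = fun g => ((ρ.character g : ℚ) : ℂ) := by
    intro τ
    funext g
    rw [eq_ratCast, map_ratCast]
  have h6 : ∀ τ : E →+* ℂ, Tendsto (fun s => ∏ᶠ χ ∈ Irr (F ≃ₐ[ℚ] F), L χ s ^ m χ) (𝓝[≠] 0)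
      (𝓝 (τ (e * e₂) * X)) := by
    intro τ
    have h7 := he τ m (by rw [hF]; exact hm)
    rw [h5 τ m hm, ← mul_assoc, ← map_mul] at h7
    exact h7
  have h7 : ∀ τ : E →+* ℂ, τ (e * e₂) = τ₀ (e * e₂) := by
    intro τ
    have h8 := tendsto_nhds_unique (h6 τ) (h6 τ₀)
    exact mul_right_cancel₀ hX h8
  obtain ⟨q, hq⟩ := rat_of_embeddings (e * e₂) _ h7
  refine ⟨q * e₁⁻¹, ?_⟩
  have h8 := h6 τ₀
  rw [← hq] at h8
  have h9 : ((q * e₁⁻¹ : ℚ) : ℂ) * x (algebraMap ℚ ℂ) = τ₀ (algebraMap ℚ E q) * X := by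
    rw [h4 (algebraMap ℚ ℂ), eq_ratCast, eq_ratCast, map_ratCast]
    have h10 : ((e₁ : ℚ) : ℂ) ≠ 0 := by exact_mod_cast he₁
    push_cast
    rw [← hXd]
    field_simp
  rw [h9]
  exact h8

/-- all monomial representations -/
theorem mon_deligne (hb : ∀ δ k, M.frob (b (δ, k)) = sg δ • b (δ, k))
    (hdet : ∀ δ, cM M t b δ ≠ 0) (hc : c * c = 1)
    (hζ : IsPrimitiveRoot ζ (Monoid.exponent (F ≃ₐ[ℚ] F))) {U : Subgroup (F ≃ₐ[ℚ] F)}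
    {ψ : U →* Eˣ}
    (hmon : ∀ (n : ℕ) (ρ : Representation E (F ≃ₐ[ℚ] F) (Fin n → E)),
      ρ.character = ind U (fun u => ((ψ u : Eˣ) : E)) → DeligneFor M ι c L ρ) :
    Deligne (fun _ => L) (PP (cM M t b true) (cM M t b false) h ι c) 0
      (ind U (fun u => ((ψ u : Eˣ) : E))) := by
  obtain ⟨n, ρ, hρ⟩ := exists_ind_rep U ψ
  rw [← hρ]
  exact to_deligne hb hdet hc hζ (hmon n ρ hρ)

end

end Pool.Agent.K7.H1.DL
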