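import Pool.Agent.K7.H1.DL.DetChar

/-!
# The function of irreducible characters which gives Deligne's periods
-/

set_option autoImplicit false
set_option linter.unusedSectionVars false

namespace Pool.Agent.K7.H1.DL

open scoped TensorProduct
open Module
open Pool.Agent.H541R3.ART Pool.Agent.R389 Pool.Agent.W446.AS

section gal

variable {G : Type} [Group G] [Finite G]

lemma pr_map (s : ℂ →+* ℂ) (f χ : G → ℂ) : pr (fun g => s (f g)) (fun g => s (χ g)) = s (pr f χ) := by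
  classical
  have : Fintype G := Fintype.ofFinite G
  rw [pr_eq, pr_eq, map_mul, map_inv₀, map_natCast, map_sum]
  congr 1
  exact Finset.sum_congr rfl fun g _ => (map_mul s _ _).symm

/-- conjugates of irreducible characters are irreducible -/
lemma irr_map (s : ℂ →+* ℂ) {χ : G → ℂ} (hχ : χ ∈ Irr G) : (fun g => s (χ g)) ∈ Irr G := by
  classical
  obtain ⟨n, ρ, hρ, rfl⟩ := hχ
  have hχ : ρ.character ∈ Irr G := ⟨n, ρ, hρ, rfl⟩
  have hcl := base_change (E := ℂ) s ρ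
  obtain ⟨m, hm⟩ := decomp_of_closure hcl
  set f : G → ℂ := fun g => s (ρ.character g) with hf
  have h1 : pr f f = 1 := by
    rw [hf, pr_map, pr_self hχ, map_one]
  have hfc : ∀ g x : G, f (x * g * x⁻¹) = f g := (virt_of_closure hcl).conj
  have h2 : ((∑ χ ∈ irrF G, m χ * m χ : ℕ) : ℂ) = ((1 : ℕ) : ℂ) := by
    rw [pr_expand hfc] at h1
    push_cast
    rw [← h1]
    exact Finset.sum_congr rfl fun χ hχ => by rw [hm.pr (mem_irrF.mp hχ)]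
  have h3 : ∑ χ ∈ irrF G, m χ * m χ = 1 := by exact_mod_cast h2
  obtain ⟨χ₀, h4, h5⟩ : ∃ χ₀ ∈ irrF G, m χ₀ ≠ 0 := by
    by_contra hcon
    push Not at hcon
    rw [Finset.sum_eq_zero fun χ hχ => by rw [hcon χ hχ, mul_zero]] at h3
    exact zero_ne_one h3
  have h6 := Finset.add_sum_erase (irrF G) (fun χ => m χ * m χ) h4
  rw [h3] at h6
  have h7 : 1 ≤ m χ₀ * m χ₀ := Nat.mul_pos (Nat.pos_of_ne_zero h5) (Nat.pos_of_ne_zero h5)
  have h8 : ∑ χ ∈ (irrF G).erase χ₀, m χ * m χ = 0 := by omega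
  have h9 : m χ₀ * m χ₀ = 1 := by omega
  have h10 : m χ₀ = 1 := Nat.eq_one_of_mul_eq_one_left h9
  have h11 : f = χ₀ := by
    funext g
    rw [hm g, finsum_irr (fun χ => (m χ : ℂ) * χ g), Finset.sum_eq_single χ₀, h10]
    · simp
    · intro b hb hne
      have h12 := (Finset.sum_eq_zero_iff.mp h8) b (Finset.mem_erase.mpr ⟨hne, hb⟩)
      have h13 : m b = 0 := by
        rcases Nat.mul_eq_zero.mp h12 with h | h
        · exact h
        · exact h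
      rw [h13, Nat.cast_zero, zero_mul]
    · intro h
      exact absurd h4 h
  rw [h11]
  exact mem_irrF.mp h4

lemma detC_map (s : ℂ →+* ℂ) {χ : G → ℂ} (hχ : χ ∈ Irr G) (g : G) :
    ((detC (fun g => s (χ g)) g : ℂˣ) : ℂ) = s ((detC χ g : ℂˣ) : ℂ) := by
  classical
  have hs := irr_map s hχ
  obtain ⟨n, ρ, hρ, rfl⟩ := hχ
  have hχ : ρ.character ∈ Irr G := ⟨n, ρ, hρ, rfl⟩
  have h1 := detR_bc s ρ (decomp_self hs) g
  rw [Finset.prod_eq_single (fun g => s (ρ.character g))] at h1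
  · rw [if_pos rfl, pow_one, detR_of_irr hρ hχ] at h1
    exact h1.symm
  · intro b _ hb
    rw [if_neg hb, pow_zero]
  · intro h
    exact absurd (mem_irrF.mpr hs) h

lemma lift_lin {E : Type} [Field E] {ζ : E} (hζ : IsPrimitiveRoot ζ (Monoid.exponent G))
    (τ : E →+* ℂ) (ψ : G →* ℂˣ) :
    ∃ ψE : G →* Eˣ, ∀ g, τ ((ψE g : Eˣ) : E) = ((ψ g : ℂˣ) : ℂ) := by
  obtain ⟨ψ', h⟩ := lift_char hζ τ (⊤ : Subgroup G) (ψ.comp (⊤ : Subgroup G).subtype)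
  refine ⟨ψ'.comp Subgroup.topEquiv.symm.toMonoidHom, fun g => ?_⟩
  exact h (Subgroup.topEquiv.symm g)

/-- the dimensions of the eigenspaces of an involution -/
lemma exists_pq {χ : G → ℂ} (hχ : χ ∈ Irr G) {c : G} (hc : c * c = 1) :
    ∃ p q : ℕ, χ 1 = p + q ∧ χ c = p - q := by
  classical
  obtain ⟨n, ρ, hρ, rfl⟩ := hχ
  obtain ⟨v, ε, hv⟩ := exists_eig (f := ρ c) (by
    intro x
    have h1 : ρ c (ρ c x) = ρ (c * c) x := by rw [map_mul]; rfl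
    rw [h1, hc, map_one]
    rfl)
  have htr : ρ.character c = ∑ j, ((sg (ε j) : ℚ) : ℂ) := by
    change LinearMap.trace ℂ _ (ρ c) = _
    rw [LinearMap.trace_eq_matrix_trace ℂ v (ρ c), Matrix.trace]
    refine Finset.sum_congr rfl fun j _ => ?_
    rw [Matrix.diag_apply, LinearMap.toMatrix_apply, hv, map_smul, Finsupp.smul_apply,
      Basis.repr_self, Finsupp.single_eq_same, smul_eq_mul, mul_one]
  refine ⟨(Finset.univ.filter fun j => ε j = true).card,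
    (Finset.univ.filter fun j => ¬ ε j = true).card, ?_, ?_⟩
  · rw [← Nat.cast_add, Finset.card_filter_add_card_filter_not]
    change LinearMap.trace ℂ _ (ρ 1) = _
    rw [map_one, LinearMap.trace_one, finrank_fin_fun, Finset.card_univ, Fintype.card_fin]
  · rw [htr, ← Finset.sum_filter_add_sum_filter_not Finset.univ (fun j => ε j = true)]
    rw [Finset.sum_congr rfl (g := fun _ => (1 : ℂ)) (by
      intro j hj
      rw [(Finset.mem_filter.mp hj).2]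
      simp [sg])]
    rw [Finset.sum_congr (s₁ := Finset.univ.filter fun j => ¬ ε j = true) rfl
      (g := fun _ => (-1 : ℂ)) (by
      intro j hj
      have h1 := (Finset.mem_filter.mp hj).2
      rw [Bool.not_eq_true] at h1
      rw [h1]
      simp [sg])]
    rw [Finset.sum_const, Finset.sum_const]
    simp
    ring

end gal

section

variable {F : Type} [Field F] [NumberField F] [IsGalois ℚ F] {E : Type} [Field E] [NumberField E]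

open Classical in
/-- the linear character with values in `E` -/
noncomputable def lamE (τ : E →+* ℂ) (χ : (F ≃ₐ[ℚ] F) → ℂ) : (F ≃ₐ[ℚ] F) →* Eˣ :=
  if h : ∃ l : (F ≃ₐ[ℚ] F) →* Eˣ, ∀ g, τ ((l g : Eˣ) : E) = ((detC χ g : ℂˣ) : ℂ) then h.choose
  else 1

open Classical in
/-- a generator of the line of a linear character -/
noncomputable def Dl (l : (F ≃ₐ[ℚ] F) →* Eˣ) : E ⊗[ℚ] F :=
  if h : ∃ D ∈ line l, D ≠ 0 then h.choose else 0

lemma Dl_spec (ι : F →+* ℂ) (τ₀ : E →+* ℂ) (l : (F ≃ₐ[ℚ] F) →* Eˣ) : Dl l ∈ line l ∧ Dl l ≠ 0 := by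
  classical
  have h := line_exists τ₀ ι l
  rw [Dl, dif_pos h]
  exact h.choose_spec

lemma lamE_spec {ζ : E} (hζ : IsPrimitiveRoot ζ (Monoid.exponent (F ≃ₐ[ℚ] F))) (τ : E →+* ℂ)
    (χ : (F ≃ₐ[ℚ] F) → ℂ) (g : F ≃ₐ[ℚ] F) :
    τ ((lamE τ χ g : Eˣ) : E) = ((detC χ g : ℂˣ) : ℂ) := by
  classical
  have h := lift_lin hζ τ (detC χ)
  rw [lamE, dif_pos h]
  exact h.choose_spec g

open Classical in
/-- the dimension of the positive eigenspace of `c` -/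
noncomputable def pc (c : F ≃ₐ[ℚ] F) (χ : (F ≃ₐ[ℚ] F) → ℂ) : ℕ :=
  if h : ∃ p q : ℕ, χ 1 = p + q ∧ χ c = p - q then h.choose else 0

open Classical in
/-- the dimension of the negative eigenspace of `c` -/
noncomputable def qc (c : F ≃ₐ[ℚ] F) (χ : (F ≃ₐ[ℚ] F) → ℂ) : ℕ :=
  if h : ∃ p q : ℕ, χ 1 = p + q ∧ χ c = p - q then h.choose_spec.choose else 0

lemma pq_spec {c : F ≃ₐ[ℚ] F} (hc : c * c = 1) {χ : (F ≃ₐ[ℚ] F) → ℂ}
    (hχ : χ ∈ Irr (F ≃ₐ[ℚ] F)) : χ 1 = pc c χ + qc c χ ∧ χ c = pc c χ - qc c χ := by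
  classical
  have h := exists_pq hχ hc
  rw [pc, qc, dif_pos h, dif_pos h]
  exact h.choose_spec.choose_spec

/-- **The local factor of the period at an irreducible character.** -/
noncomputable def PP (Cp Cm : ℂ) (h : ℕ) (ι : F →+* ℂ) (c : F ≃ₐ[ℚ] F) (τ : E →+* ℂ)
    (χ : (F ≃ₐ[ℚ] F) → ℂ) : ℂ :=
  Cp ^ pc c χ * Cm ^ qc c χ * (evT τ ι (Dl (lamE τ χ)) ^ h)⁻¹

lemma PP_ne {Cp Cm : ℂ} (hp : Cp ≠ 0) (hm : Cm ≠ 0) (h : ℕ) (ι : F →+* ℂ) (c : F ≃ₐ[ℚ] F)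
    (τ : E →+* ℂ) (χ : (F ≃ₐ[ℚ] F) → ℂ) : PP Cp Cm h ι c τ χ ≠ 0 := by
  have h1 := Dl_spec ι τ (lamE (E := E) τ χ)
  exact mul_ne_zero (mul_ne_zero (pow_ne_zero _ hp) (pow_ne_zero _ hm))
    (inv_ne_zero (pow_ne_zero _ (line_ev h1.1 h1.2 τ ι)))

/-- the determinant element -/
noncomputable def PiD (τ : E →+* ℂ) (m : ((F ≃ₐ[ℚ] F) → ℂ) → ℕ) : E ⊗[ℚ] F :=
  ∏ χ ∈ irrF (F ≃ₐ[ℚ] F), Dl (lamE τ χ) ^ m χ

lemma PiD_indep {ζ : E} (hζ : IsPrimitiveRoot ζ (Monoid.exponent (F ≃ₐ[ℚ] F)))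
    {f : (F ≃ₐ[ℚ] F) → E} {τ τ' : E →+* ℂ} {m m' : ((F ≃ₐ[ℚ] F) → ℂ) → ℕ}
    (hm : IsDecomp (fun g => τ (f g)) m) (hm' : IsDecomp (fun g => τ' (f g)) m') :
    (PiD τ m : E ⊗[ℚ] F) = PiD τ' m' := by
  classical
  obtain ⟨s, hs⟩ := Pool.Agent.TH170.MF.exists_comp_eq E τ τ'
  have hs' : ∀ x, s (τ x) = τ' x := fun x => congrArg (fun h : E →+* ℂ => h x) hs
  refine Finset.prod_bij' (fun χ _ => fun g => s (χ g)) (fun χ _ => fun g => s.symm (χ g)) ?_ ?_ ?_ ?_ ?_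
  · intro χ hχ
    exact mem_irrF.mpr (irr_map (s : ℂ →+* ℂ) (mem_irrF.mp hχ))
  · intro χ hχ
    exact mem_irrF.mpr (irr_map (s.symm : ℂ →+* ℂ) (mem_irrF.mp hχ))
  · intro χ _
    funext g
    exact s.symm_apply_apply _
  · intro χ _
    funext g
    exact s.apply_symm_apply _
  · intro χ hχ
    have hχ' := mem_irrF.mp hχ
    have h1 : (lamE τ χ : (F ≃ₐ[ℚ] F) →* Eˣ) = lamE τ' (fun g => s (χ g)) := by
      ext g
      apply τ'.injective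
      rw [lamE_spec hζ, ← hs', lamE_spec hζ]
      exact (detC_map (s : ℂ →+* ℂ) hχ' g).symm
    have h2 : m χ = m' (fun g => s (χ g)) := by
      have h3 := hm.pr hχ'
      have h4 := hm'.pr (irr_map (s : ℂ →+* ℂ) hχ')
      have h5 : (fun g => τ' (f g)) = fun g => (s : ℂ →+* ℂ) (τ (f g)) := by
        funext g
        exact (hs' _).symm
      rw [h5, pr_map, h3] at h4
      have h6 : ((s : ℂ →+* ℂ) (m χ : ℂ)) = m χ := map_natCast _ _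
      rw [h6] at h4
      exact_mod_cast h4
    rw [h1, h2]

/-- **Consistency.** -/
theorem consistency {ζ : E} (hζ : IsPrimitiveRoot ζ (Monoid.exponent (F ≃ₐ[ℚ] F))) {c : F ≃ₐ[ℚ] F}
    (hc : c * c = 1) (ι : F →+* ℂ) (τ₀ : E →+* ℂ) (Cp Cm : ℂ) (h : ℕ) {f : (F ≃ₐ[ℚ] F) → E}
    (hf : ∃ m, IsDecomp (fun g => τ₀ (f g)) m) {l : (F ≃ₐ[ℚ] F) →* Eˣ}
    (hl : ∀ (τ : E →+* ℂ) (m : ((F ≃ₐ[ℚ] F) → ℂ) → ℕ), IsDecomp (fun g => τ (f g)) m →
      ∀ g, τ ((l g : Eˣ) : E) = ∏ χ ∈ irrF (F ≃ₐ[ℚ] F), ((detC χ g : ℂˣ) : ℂ) ^ m χ)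
    {np nm : ℕ} (h1 : f 1 = np + nm) (h2 : f c = np - nm) {D : E ⊗[ℚ] F} (hD : D ∈ line l)
    (hD0 : D ≠ 0) : ∃ e : E, e ≠ 0 ∧ ∀ (τ : E →+* ℂ) (m : ((F ≃ₐ[ℚ] F) → ℂ) → ℕ),
      IsDecomp (fun g => τ (f g)) m → ∏ᶠ χ ∈ Irr (F ≃ₐ[ℚ] F), PP Cp Cm h ι c τ χ ^ m χ
        = τ e * (Cp ^ np * Cm ^ nm * (evT τ ι D ^ h)⁻¹) := by
  classical
  obtain ⟨m₀, hm₀⟩ := hf
  have hmem : ∀ (τ : E →+* ℂ) (m : ((F ≃ₐ[ℚ] F) → ℂ) → ℕ), IsDecomp (fun g => τ (f g)) m →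
      PiD τ m ∈ line l := by
    intro τ m hm
    have h3 : l = ∏ χ ∈ irrF (F ≃ₐ[ℚ] F), (lamE τ χ : (F ≃ₐ[ℚ] F) →* Eˣ) ^ m χ := by
      ext g
      apply τ.injective
      rw [hl τ m hm g, MonoidHom.finsetProd_apply, Units.coe_prod, map_prod]
      refine Finset.prod_congr rfl fun χ _ => ?_
      rw [← lamE_spec hζ τ χ g, ← map_pow]
      rfl
    rw [h3]
    exact line_prod _ fun χ _ => line_pow (Dl_spec ι τ _).1 _
  obtain ⟨e₁, he₁⟩ := line_unique τ₀ ι hD hD0 (hmem τ₀ m₀ hm₀)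
  have hev : evT τ₀ ι (PiD τ₀ m₀) ≠ 0 := by
    rw [PiD, map_prod]
    refine Finset.prod_ne_zero_iff.mpr fun χ _ => ?_
    rw [map_pow]
    have h3 := Dl_spec ι τ₀ (lamE (E := E) τ₀ χ)
    exact pow_ne_zero _ (line_ev h3.1 h3.2 τ₀ ι)
  have he₁0 : e₁ ≠ 0 := by
    intro h3
    rw [he₁, h3, zero_smul, map_zero] at hev
    exact hev rfl
  refine ⟨(e₁ ^ h)⁻¹, inv_ne_zero (pow_ne_zero _ he₁0), fun τ m hm => ?_⟩
  have h3 := PiD_indep hζ hm₀ hm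
  have h4 : evT τ ι (PiD τ m) = τ e₁ * evT τ ι D := by rw [← h3, he₁, evT_smul]
  -- the signs
  have h5 : ((∑ χ ∈ irrF (F ≃ₐ[ℚ] F), m χ * pc c χ : ℕ) : ℂ) = np ∧
      ((∑ χ ∈ irrF (F ≃ₐ[ℚ] F), m χ * qc c χ : ℕ) : ℂ) = nm := by
    have h6 : τ (f 1) = _ := hm 1
    have h7 : τ (f c) = _ := hm c
    rw [finsum_irr (fun χ => (m χ : ℂ) * χ 1)] at h6
    rw [finsum_irr (fun χ => (m χ : ℂ) * χ c)] at h7
    rw [h1, map_add, map_natCast, map_natCast] at h6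
    rw [h2, map_sub, map_natCast, map_natCast] at h7
    have h8 : ∑ χ ∈ irrF (F ≃ₐ[ℚ] F), (m χ : ℂ) * χ 1
        = ((∑ χ ∈ irrF (F ≃ₐ[ℚ] F), m χ * pc c χ : ℕ) : ℂ)
          + ((∑ χ ∈ irrF (F ≃ₐ[ℚ] F), m χ * qc c χ : ℕ) : ℂ) := by
      push_cast
      rw [← Finset.sum_add_distrib]
      refine Finset.sum_congr rfl fun χ hχ => ?_
      rw [(pq_spec hc (mem_irrF.mp hχ)).1]
      ring
    have h9 : ∑ χ ∈ irrF (F ≃ₐ[ℚ] F), (m χ : ℂ) * χ c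
        = ((∑ χ ∈ irrF (F ≃ₐ[ℚ] F), m χ * pc c χ : ℕ) : ℂ)
          - ((∑ χ ∈ irrF (F ≃ₐ[ℚ] F), m χ * qc c χ : ℕ) : ℂ) := by
      push_cast
      rw [← Finset.sum_sub_distrib]
      refine Finset.sum_congr rfl fun χ hχ => ?_
      rw [(pq_spec hc (mem_irrF.mp hχ)).2]
      ring
    rw [h8] at h6
    rw [h9] at h7
    constructor
    · linear_combination -(1 / 2 : ℂ) * h6 - (1 / 2 : ℂ) * h7
    · linear_combination -(1 / 2 : ℂ) * h6 + (1 / 2 : ℂ) * h7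
  have h6 : ∑ χ ∈ irrF (F ≃ₐ[ℚ] F), pc c χ * m χ = np := by
    have := h5.1
    simp only [mul_comm]
    exact_mod_cast this
  have h7 : ∑ χ ∈ irrF (F ≃ₐ[ℚ] F), qc c χ * m χ = nm := by
    have := h5.2
    simp only [mul_comm]
    exact_mod_cast this
  rw [finprod_irr (fun χ => PP Cp Cm h ι c τ χ ^ m χ)]
  have h8 : ∏ χ ∈ irrF (F ≃ₐ[ℚ] F), PP Cp Cm h ι c τ χ ^ m χ
      = Cp ^ np * Cm ^ nm * (evT τ ι (PiD τ m) ^ h)⁻¹ := by
    rw [← h6, ← h7, ← Finset.prod_pow_eq_pow_sum, ← Finset.prod_pow_eq_pow_sum, PiD, map_prod,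
      ← Finset.prod_pow, ← Finset.prod_inv_distrib, ← Finset.prod_mul_distrib,
      ← Finset.prod_mul_distrib]
    refine Finset.prod_congr rfl fun χ _ => ?_
    rw [PP, mul_pow, mul_pow, ← pow_mul, ← pow_mul, map_pow, inv_pow, ← pow_mul, ← pow_mul,
      mul_comm h (m χ)]
  rw [h8, h4, mul_pow, mul_inv, map_inv₀, map_pow]
  ring

end

end Pool.Agent.K7.H1.DL
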