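import Mathlib
import Pool.Agent.R389.Defs

/-!
# Pure motives over `ℚ` and their twists by Artin motives: realizations and Deligne's periods
-/

set_option autoImplicit false

namespace Pool.Agent.K7.H1.DL

open scoped TensorProduct
open Pool.Agent.H541R3.ART Pool.Agent.R389 Filter Topology

noncomputable section

/-- Complex conjugation of the coefficients of `ℂ ⊗ V`. -/
def conjC (V : Type) [AddCommGroup V] [Module ℚ V] : ℂ ⊗[ℚ] V →ₗ[ℚ] ℂ ⊗[ℚ] V :=
  (Complex.conjAe.toLinearMap.restrictScalars ℚ).rTensor V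

/-- **The Betti and de Rham realizations of a pure motive over `ℚ`** (with rational
coefficients). -/
structure Motive where
  /-- the weight -/
  w : ℤ
  /-- the Betti realization -/
  B : Type
  [acgB : AddCommGroup B]
  [modB : Module ℚ B]
  [finB : FiniteDimensional ℚ B]
  /-- the de Rham realization -/
  D : Type
  [acgD : AddCommGroup D]
  [modD : Module ℚ D]
  [finD : FiniteDimensional ℚ D]
  /-- the involution `F_∞` induced by complex conjugation -/
  frob : B →ₗ[ℚ] B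
  frob_frob : ∀ b, frob (frob b) = b
  /-- the Hodge decomposition, `H p` is `H^{p, w - p}` -/
  H : ℤ → Submodule ℂ (ℂ ⊗[ℚ] B)
  internal : DirectSum.IsInternal H
  H_frob : ∀ p, ∀ x ∈ H p, frob.baseChange ℂ x ∈ H (w - p)
  H_conj : ∀ p, ∀ x ∈ H p, conjC B x ∈ H (w - p)
  /-- the Hodge filtration of the de Rham realization -/
  Fil : ℤ → Submodule ℚ D
  /-- the comparison isomorphism -/
  I : (ℂ ⊗[ℚ] B) ≃ₗ[ℂ] (ℂ ⊗[ℚ] D)
  I_fil : ∀ p, (⨆ q : {q : ℤ // p ≤ q}, H q).map (I : ℂ ⊗[ℚ] B →ₗ[ℂ] ℂ ⊗[ℚ] D)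
    = (Fil p).baseChange ℂ
  I_conj : ∀ x, I (conjC B (frob.baseChange ℂ x)) = conjC D (I x)

attribute [instance] Motive.acgB Motive.modB Motive.finB Motive.acgD Motive.modD Motive.finD

/-- The motive is critical, and `H^{p, p} = 0` for all `p` (so that all its twists by Artin motives
are critical). -/
structure Motive.Critical (M : Motive) : Prop where
  offDiagonal : ∀ p, M.H p ≠ ⊥ → M.w ≠ 2 * p
  critical : ∀ p, M.H p ≠ ⊥ → min p (M.w - p) ≤ -1 ∧ 0 ≤ max p (M.w - p)

/-- The tangent space `M_dR / F^0`; this is `M_dR^+` and `M_dR^-` for a critical motive with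
`H^{p, p} = 0` for all `p`. -/
abbrev Motive.T (M : Motive) : Type := M.D ⧸ M.Fil 0

/-- The comparison map to the complexified tangent space. -/
def Motive.IT (M : Motive) : ℂ ⊗[ℚ] M.B →ₗ[ℂ] ℂ ⊗[ℚ] M.T :=
  ((M.Fil 0).mkQ.baseChange ℂ) ∘ₗ (M.I : ℂ ⊗[ℚ] M.B →ₗ[ℂ] ℂ ⊗[ℚ] M.D)

section artin

variable {F : Type} [Field F] [NumberField F] {E : Type} [Field E] [CharZero E]

/-- The action of the Galois group on the second factor of `E ⊗ F`. -/
def galT (E : Type) [Field E] [CharZero E] (g : F ≃ₐ[ℚ] F) : E ⊗[ℚ] F →ₐ[E] E ⊗[ℚ] F :=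
  Algebra.TensorProduct.map (AlgHom.id E E) (g : F →ₐ[ℚ] F)

/-- The homomorphism `E ⊗ F → ℂ` given by embeddings of `E` and `F`. -/
def evT (τ : E →+* ℂ) (ι : F →+* ℂ) : E ⊗[ℚ] F →+* ℂ :=
  (Algebra.TensorProduct.lift τ.toRatAlgHom ι.toRatAlgHom fun _ _ => Commute.all _ _).toRingHom

variable {n : ℕ}

/-- The de Rham realization `(E^n ⊗ F)^G` of the Artin motive of the representation `ρ` of
`G = Gal(F/ℚ)` on `E^n`. -/
def dRArt (ρ : Representation E (F ≃ₐ[ℚ] F) (Fin n → E)) : Submodule E (Fin n → E ⊗[ℚ] F) where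
  carrier := {a | ∀ g i, ∑ j, LinearMap.toMatrix' (ρ g) i j • galT E g (a j) = a i}
  add_mem' := by
    intro a b ha hb g i
    simp only [Pi.add_apply, map_add, smul_add, Finset.sum_add_distrib]
    rw [ha g i, hb g i]
  zero_mem' := by
    intro g i
    simp
  smul_mem' := by
    intro e a ha g i
    rw [Pi.smul_apply, ← ha g i, Finset.smul_sum]
    refine Finset.sum_congr rfl fun j _ => ?_
    rw [Pi.smul_apply, map_smul, smul_comm]

/-- The part of the Betti realization `(E ⊗ M_B)^n` of `M ⊗ ρ` fixed by `F_∞`; the element `c` of the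
Galois group is complex conjugation. -/
def bPlus (M : Motive) (c : F ≃ₐ[ℚ] F) (ρ : Representation E (F ≃ₐ[ℚ] F) (Fin n → E)) :
    Submodule E (Fin n → E ⊗[ℚ] M.B) where
  carrier := {x | ∀ i, ∑ j, LinearMap.toMatrix' (ρ c) i j • M.frob.baseChange E (x j) = x i}
  add_mem' := by
    intro a b ha hb i
    simp only [Pi.add_apply, map_add, smul_add, Finset.sum_add_distrib]
    rw [ha i, hb i]
  zero_mem' := by
    intro i
    simp
  smul_mem' := by
    intro e a ha i
    rw [Pi.smul_apply, ← ha i, Finset.smul_sum]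
    refine Finset.sum_congr rfl fun j _ => ?_
    rw [Pi.smul_apply, map_smul, smul_comm]

/-- **Deligne's periods of `M ⊗ ρ`**, for all embeddings `τ` of the field of coefficients `E`: `x τ`
is the determinant of the comparison map from the complexification of the part of the Betti
realization fixed by `F_∞` to the complexification of `(E^n ⊗ F)^G ⊗ M_dR / F^0`, with respect to
bases `b` and `a ⊗ t` over `E`. They are well defined up to a common factor `e ≠ 0` in `E`. -/
def IsPeriod (M : Motive) (ι : F →+* ℂ) (c : F ≃ₐ[ℚ] F)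
    (ρ : Representation E (F ≃ₐ[ℚ] F) (Fin n → E)) (x : (E →+* ℂ) → ℂ) : Prop :=
  ∃ (h : ℕ) (b : Module.Basis (Fin n × Fin h) E (bPlus M c ρ)) (a : Module.Basis (Fin n) E (dRArt ρ))
    (t : Module.Basis (Fin h) ℚ M.T), ∀ τ : E →+* ℂ,
      ∃ C : Matrix (Fin n × Fin h) (Fin n × Fin h) ℂ,
        (∀ p i, M.IT (τ.toRatAlgHom.toLinearMap.rTensor M.B ((b p : Fin n → E ⊗[ℚ] M.B) i))
          = ∑ q, C p q • (evT τ ι ((a q.1 : Fin n → E ⊗[ℚ] F) i) ⊗ₜ[ℚ] t q.2)) ∧
        x τ = C.det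

/-- **Deligne's conjecture for `M ⊗ ρ`.** Here `L χ` is the L-function of `M ⊗ χ` for the irreducible
complex characters `χ` of `G`, so that the L-function of `M ⊗ ρ` for an embedding `τ` of the field
of coefficients is the product of the `L χ`, with the multiplicities `m χ` of the `χ` in `τ ∘ ρ`.
There is an element `e` of `E` such that the value at `s = 0` is `τ e` times the period, for all
`τ`. -/
def DeligneFor (M : Motive) (ι : F →+* ℂ) (c : F ≃ₐ[ℚ] F) (L : ((F ≃ₐ[ℚ] F) → ℂ) → ℂ → ℂ)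
    (ρ : Representation E (F ≃ₐ[ℚ] F) (Fin n → E)) : Prop :=
  ∃ x, IsPeriod M ι c ρ x ∧ ∃ e : E, ∀ (τ : E →+* ℂ) (m : ((F ≃ₐ[ℚ] F) → ℂ) → ℕ),
    IsDecomp (fun g => τ (ρ.character g)) m →
      Tendsto (fun s => ∏ᶠ χ ∈ Irr (F ≃ₐ[ℚ] F), L χ s ^ m χ) (𝓝[≠] 0) (𝓝 (τ e * x τ))

end artin

end

end Pool.Agent.K7.H1.DL
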