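import Pool.Agent.K7.H1.DL.Defs

/-!
# Galois descent for the de Rham realizations of Artin motives
-/

set_option autoImplicit false

namespace Pool.Agent.K7.H1.DL

open scoped TensorProduct
open Module

section

variable {F : Type} [Field F] [NumberField F] {E : Type} [Field E] [CharZero E] {n : ℕ}

@[simp] lemma evT_tmul (τ : E →+* ℂ) (ι : F →+* ℂ) (e : E) (x : F) :
    evT τ ι (e ⊗ₜ x) = τ e * ι x := by
  simp [evT]

lemma evT_smul (τ : E →+* ℂ) (ι : F →+* ℂ) (e : E) (a : E ⊗[ℚ] F) :
    evT τ ι (e • a) = τ e * evT τ ι a := by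
  have h : e • a = (e ⊗ₜ (1 : F)) * a := by
    rw [Algebra.smul_def, Algebra.TensorProduct.algebraMap_apply]
    rfl
  rw [h, map_mul, evT_tmul, map_one, mul_one]

@[simp] lemma galT_tmul (g : F ≃ₐ[ℚ] F) (e : E) (x : F) : galT E g (e ⊗ₜ x) = e ⊗ₜ g x := by
  simp [galT]

lemma evT_galT (τ : E →+* ℂ) (ι : F →+* ℂ) (g : F ≃ₐ[ℚ] F) (a : E ⊗[ℚ] F) :
    evT τ ι (galT E g a) = evT τ (ι.comp (g : F →+* F)) a := by
  induction a using TensorProduct.induction_on with
  | zero => simp
  | tmul e x => simp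
  | add a b ha hb => rw [map_add, map_add, map_add, ha, hb]

lemma galT_mul (g h : F ≃ₐ[ℚ] F) (a : E ⊗[ℚ] F) : galT E g (galT E h a) = galT E (g * h) a := by
  induction a using TensorProduct.induction_on with
  | zero => simp
  | tmul e x => simp
  | add a b ha hb => rw [map_add, map_add, map_add, ha, hb]

/-- the coordinates of `E ⊗ F` -/
noncomputable def bEF (E F : Type) [Field E] [CharZero E] [Field F] [NumberField F] :
    Basis (Fin (finrank ℚ F)) E (E ⊗[ℚ] F) := (finBasis ℚ F).baseChange E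

lemma evT_eq (τ : E →+* ℂ) (ι : F →+* ℂ) (a : E ⊗[ℚ] F) :
    evT τ ι a = ∑ m, τ ((bEF E F).repr a m) * ι (finBasis ℚ F m) := by
  conv_lhs => rw [← (bEF E F).sum_repr a]
  rw [map_sum]
  refine Finset.sum_congr rfl fun m _ => ?_
  rw [evT_smul, bEF, Basis.baseChange_apply, evT_tmul, map_one, one_mul]

variable [IsGalois ℚ F]

lemma indep_emb (ι : F →+* ℂ) (d : (F ≃ₐ[ℚ] F) → ℂ) (h : ∀ x : F, ∑ g, d g * ι (g x) = 0) :
    d = 0 := by
  classical
  have h1 := linearIndependent_monoidHom F ℂ
  have hinj : Function.Injective (fun g : F ≃ₐ[ℚ] F =>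
      ((ι.comp (g : F →+* F) : F →+* ℂ) : F →* ℂ)) := by
    intro g g' hg
    ext x
    have := DFunLike.congr_fun hg x
    exact ι.injective this
  have h2 := h1.comp _ hinj
  rw [Fintype.linearIndependent_iff] at h2
  funext g
  refine h2 d ?_ g
  funext x
  have := h x
  simp only [Function.comp_apply, Finset.sum_apply, Pi.smul_apply, smul_eq_mul]
  rw [Pi.zero_apply, ← this]
  rfl

lemma indep_emb' (ι : F →+* ℂ) (y : Fin (finrank ℚ F) → ℂ)
    (hy : ∀ g : F ≃ₐ[ℚ] F, ∑ m, ι (g (finBasis ℚ F m)) * y m = 0) : y = 0 := by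
  classical
  let R : (F ≃ₐ[ℚ] F) → Fin (finrank ℚ F) → ℂ := fun g m => ι (g (finBasis ℚ F m))
  have hR : LinearIndependent ℂ R := by
    rw [Fintype.linearIndependent_iff]
    intro d hd g
    have h1 : d = 0 := by
      refine indep_emb ι d fun x => ?_
      have h2 : ∀ g : F ≃ₐ[ℚ] F, ι (g x) = ∑ m, ι (algebraMap ℚ F ((finBasis ℚ F).repr x m)) * R g m := by
        intro g
        conv_lhs => rw [← (finBasis ℚ F).sum_repr x]
        rw [map_sum, map_sum]
        refine Finset.sum_congr rfl fun m _ => ?_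
        rw [Algebra.smul_def, map_mul, map_mul, AlgEquiv.commutes]
      simp only [h2, Finset.mul_sum]
      rw [Finset.sum_comm]
      refine Finset.sum_eq_zero fun m _ => ?_
      have h3 := congrFun hd m
      rw [Finset.sum_apply] at h3
      have h4 : ∑ g, d g * (ι (algebraMap ℚ F ((finBasis ℚ F).repr x m)) * R g m)
          = ι (algebraMap ℚ F ((finBasis ℚ F).repr x m)) * ∑ g, (d g • R g) m := by
        rw [Finset.mul_sum]
        refine Finset.sum_congr rfl fun g _ => ?_
        rw [Pi.smul_apply, smul_eq_mul]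
        ring
      rw [h4, h3, Pi.zero_apply, mul_zero]
    rw [h1]
    rfl
  have hcard : Fintype.card (F ≃ₐ[ℚ] F) = finrank ℂ (Fin (finrank ℚ F) → ℂ) := by
    rw [finrank_fin_fun, ← Nat.card_eq_fintype_card, IsGalois.card_aut_eq_finrank]
  have hspan := hR.span_eq_top_of_card_eq_finrank' hcard
  let φ : (Fin (finrank ℚ F) → ℂ) →ₗ[ℂ] ℂ :=
    { toFun := fun v => ∑ m, v m * y m
      map_add' := by
        intro v w
        simp only [Pi.add_apply, add_mul, Finset.sum_add_distrib]
      map_smul' := by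
        intro r v
        simp only [Pi.smul_apply, smul_eq_mul, RingHom.id_apply, Finset.mul_sum, mul_assoc] }
  have hφ : φ = 0 := by
    refine LinearMap.ext_on_range (v := R) hspan fun g => ?_
    exact hy g
  funext m
  have h1 : φ (Pi.single m 1) = 0 := by rw [hφ]; rfl
  have h2 : φ (Pi.single m 1) = y m := by
    change ∑ m', (Pi.single m 1 : Fin (finrank ℚ F) → ℂ) m' * y m' = y m
    rw [Finset.sum_eq_single m]
    · rw [Pi.single_eq_same, one_mul]
    · intro b _ hb
      rw [Pi.single_eq_of_ne hb, zero_mul]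
    · intro h; exact absurd (Finset.mem_univ _) h
  rw [← h2, h1]
  rfl

/-- linear independence is preserved by embeddings of fields -/
lemma indep_map {κ ι' : Type} [Finite κ] [Finite ι'] (τ : E →+* ℂ) {v : κ → ι' → E}
    (hv : LinearIndependent E v) : LinearIndependent ℂ (fun k i => τ (v k i)) := by
  classical
  have : Fintype κ := Fintype.ofFinite κ
  have : Fintype ι' := Fintype.ofFinite ι'
  let f : (κ → E) →ₗ[E] (ι' → E) := Fintype.linearCombination E v
  have hf : LinearMap.ker f = ⊥ := by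
    rw [LinearMap.ker_eq_bot]
    exact linearIndependent_iff_injective_fintypeLinearCombination.mp hv
  obtain ⟨g, hg⟩ := f.exists_leftInverse_of_injective hf
  have h1 : ∀ k k', ∑ i, v k i * g (Pi.single i 1) k' = if k = k' then 1 else 0 := by
    intro k k'
    have h2 : f (Pi.single k 1) = v k := by
      change Fintype.linearCombination E v (Pi.single k 1) = v k
      rw [Fintype.linearCombination_apply_single, one_smul]
    have h3 : g (v k) = Pi.single k 1 := by
      rw [← h2]
      exact LinearMap.congr_fun hg _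
    have h4 : v k = ∑ i, v k i • (Pi.single i 1 : ι' → E) := by
      funext j
      rw [Finset.sum_apply, Finset.sum_eq_single j]
      · rw [Pi.smul_apply, Pi.single_eq_same, smul_eq_mul, mul_one]
      · intro b _ hb
        rw [Pi.smul_apply, Pi.single_eq_of_ne hb.symm, smul_zero]
      · intro h; exact absurd (Finset.mem_univ _) h
    have h5 : (∑ i, v k i * g (Pi.single i 1) k') = g (v k) k' := by
      conv_rhs => rw [h4]
      rw [map_sum, Finset.sum_apply]
      refine Finset.sum_congr rfl fun i _ => ?_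
      rw [map_smul, Pi.smul_apply, smul_eq_mul]
    rw [h5, h3, Pi.single_apply]
    simp only [eq_comm]
  rw [Fintype.linearIndependent_iff]
  intro d hd k'
  have h2 : ∀ i, ∑ k, d k * τ (v k i) = 0 := by
    intro i
    have := congrFun hd i
    rw [Finset.sum_apply] at this
    exact this
  have h3 : ∑ i, (∑ k, d k * τ (v k i)) * τ (g (Pi.single i 1) k') = d k' := by
    simp only [Finset.sum_mul, mul_assoc]
    rw [Finset.sum_comm]
    have h4 : ∀ k, ∑ i, d k * (τ (v k i) * τ (g (Pi.single i 1) k'))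
        = d k * if k = k' then 1 else 0 := by
      intro k
      rw [← Finset.mul_sum]
      congr 1
      rw [← map_one τ, ← map_zero τ, ← apply_ite τ, ← h1 k k', map_sum]
      exact Finset.sum_congr rfl fun i _ => (map_mul τ _ _).symm
    rw [Finset.sum_congr rfl fun k _ => h4 k, Finset.sum_eq_single k']
    · rw [if_pos rfl, mul_one]
    · intro b _ hb
      rw [if_neg hb, mul_zero]
    · intro h; exact absurd (Finset.mem_univ _) h
  rw [← h3]
  exact Finset.sum_eq_zero fun i _ => by rw [h2 i, zero_mul]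

/-- the vector in `ℂ^n` -/
noncomputable def kap (τ : E →+* ℂ) (ι : F →+* ℂ) (a : Fin n → E ⊗[ℚ] F) : Fin n → ℂ :=
  fun i => evT τ ι (a i)

lemma kap_gal {ρ : Representation E (F ≃ₐ[ℚ] F) (Fin n → E)} {a : Fin n → E ⊗[ℚ] F}
    (ha : a ∈ dRArt ρ) (τ : E →+* ℂ) (ι : F →+* ℂ) (g : F ≃ₐ[ℚ] F) (i : Fin n) :
    ∑ j, τ (LinearMap.toMatrix' (ρ g) i j) * evT τ (ι.comp (g : F →+* F)) (a j) = evT τ ι (a i) := by
  rw [← ha g i, map_sum]
  exact Finset.sum_congr rfl fun j _ => by rw [evT_smul, evT_galT]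

/-- **Descent, injectivity.** -/
theorem kap_indep {κ : Type} [Finite κ] {ρ : Representation E (F ≃ₐ[ℚ] F) (Fin n → E)}
    {a : κ → Fin n → E ⊗[ℚ] F} (ha : ∀ k, a k ∈ dRArt ρ) (hi : LinearIndependent E a)
    (τ : E →+* ℂ) (ι : F →+* ℂ) : LinearIndependent ℂ (fun k => kap τ ι (a k)) := by
  classical
  have : Fintype κ := Fintype.ofFinite κ
  rw [Fintype.linearIndependent_iff]
  intro d hd
  have h0 : ∀ i, ∑ k, d k * evT τ ι (a k i) = 0 := by
    intro i
    have := congrFun hd i
    rw [Finset.sum_apply] at this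
    exact this
  -- all conjugates
  have h1 : ∀ (g : F ≃ₐ[ℚ] F) (i : Fin n), ∑ k, d k * evT τ (ι.comp (g : F →+* F)) (a k i) = 0 := by
    intro g
    let y : Fin n → ℂ := fun i => ∑ k, d k * evT τ (ι.comp (g : F →+* F)) (a k i)
    have h2 : ∀ i, ∑ j, τ (LinearMap.toMatrix' (ρ g) i j) * y j = 0 := by
      intro i
      simp only [y, Finset.mul_sum]
      rw [Finset.sum_comm, ← h0 i]
      refine Finset.sum_congr rfl fun k _ => ?_
      rw [← kap_gal (ha k) τ ι g i, Finset.mul_sum]
      exact Finset.sum_congr rfl fun j _ => by ring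
    have h3 : (LinearMap.toMatrix' (ρ g⁻¹)) * (LinearMap.toMatrix' (ρ g)) = 1 := by
      rw [← LinearMap.toMatrix'_mul, ← map_mul, inv_mul_cancel, map_one]
      exact LinearMap.toMatrix'_one
    have h4 : ∀ l i, ∑ j, LinearMap.toMatrix' (ρ g⁻¹) l j * LinearMap.toMatrix' (ρ g) j i
        = if l = i then 1 else 0 := by
      intro l i
      have := congrFun (congrFun h3 l) i
      rw [Matrix.mul_apply, Matrix.one_apply] at this
      exact this
    intro l
    have h5 : ∑ i, τ (LinearMap.toMatrix' (ρ g⁻¹) l i) *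
        (∑ j, τ (LinearMap.toMatrix' (ρ g) i j) * y j) = y l := by
      simp only [Finset.mul_sum, ← mul_assoc, ← map_mul]
      rw [Finset.sum_comm]
      simp only [← Finset.sum_mul, ← map_sum, h4]
      rw [Finset.sum_eq_single l]
      · rw [if_pos rfl, map_one, one_mul]
      · intro b _ hb
        rw [if_neg hb.symm, map_zero, zero_mul]
      · intro h; exact absurd (Finset.mem_univ _) h
    change y l = 0
    rw [← h5]
    exact Finset.sum_eq_zero fun i _ => by rw [h2 i, mul_zero]
  -- coordinates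
  let v : κ → (Fin n × Fin (finrank ℚ F)) → E := fun k p => (bEF E F).repr (a k p.1) p.2
  have hv : LinearIndependent E v := by
    rw [Fintype.linearIndependent_iff] at hi ⊢
    intro e he
    refine hi e ?_
    funext i
    rw [Finset.sum_apply]
    refine (bEF E F).ext_elem fun m => ?_
    have h2 := congrFun he (i, m)
    rw [Finset.sum_apply] at h2
    simp only [Pi.smul_apply, map_sum, map_smul, Finsupp.coe_finsetSum, Finset.sum_apply,
      Finsupp.smul_apply, Pi.zero_apply, map_zero, Finsupp.coe_zero]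
    exact h2
  have hw := indep_map τ hv
  rw [Fintype.linearIndependent_iff] at hw
  refine hw d ?_
  funext p
  obtain ⟨i, m⟩ := p
  rw [Finset.sum_apply]
  have h2 : (fun m => ∑ k, d k * τ ((bEF E F).repr (a k i) m)) = 0 := by
    refine indep_emb' ι _ fun g => ?_
    rw [← h1 g i]
    simp only [evT_eq, Finset.mul_sum]
    rw [Finset.sum_comm]
    refine Finset.sum_congr rfl fun k _ => Finset.sum_congr rfl fun m _ => ?_
    change ι (g _) * _ = d k * (_ * ι (g _))
    ring
  exact congrFun h2 m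

/-- **Descent, surjectivity.** -/
theorem kap_span (ρ : Representation E (F ≃ₐ[ℚ] F) (Fin n → E)) (τ : E →+* ℂ) (ι : F →+* ℂ) :
    Submodule.span ℂ {y | ∃ a ∈ dRArt ρ, kap τ ι a = y} = ⊤ := by
  classical
  rw [← Submodule.dualAnnihilator_eq_bot_iff, eq_bot_iff]
  intro φ hφ
  rw [Submodule.mem_dualAnnihilator] at hφ
  rw [Submodule.mem_bot]
  let av : (Fin n → E) → F → Fin n → E ⊗[ℚ] F := fun v x i => ∑ g : F ≃ₐ[ℚ] F, (ρ g v i) ⊗ₜ (g x)
  have hav : ∀ v x, av v x ∈ dRArt ρ := by
    intro v x h i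
    change ∑ j, LinearMap.toMatrix' (ρ h) i j • galT E h (∑ g, (ρ g v j) ⊗ₜ (g x)) = _
    simp only [map_sum, galT_tmul, Finset.smul_sum]
    rw [Finset.sum_comm]
    change _ = ∑ g : F ≃ₐ[ℚ] F, (ρ g v i) ⊗ₜ (g x)
    rw [← Equiv.sum_comp (Equiv.mulLeft h) (fun g : F ≃ₐ[ℚ] F => (ρ g v i) ⊗ₜ (g x))]
    refine Finset.sum_congr rfl fun g _ => ?_
    have h1 : ρ (h * g) v i = ∑ j, LinearMap.toMatrix' (ρ h) i j * ρ g v j := by
      have h2 : ρ (h * g) v = ρ h (ρ g v) := by rw [map_mul]; rfl
      have h3 : ρ h (ρ g v) = (LinearMap.toMatrix' (ρ h)).mulVec (ρ g v) := by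
        rw [LinearMap.toMatrix'_mulVec]
      rw [h2, h3]
      rfl
    rw [Equiv.coe_mulLeft, h1, TensorProduct.sum_tmul]
    refine Finset.sum_congr rfl fun j _ => ?_
    rw [TensorProduct.smul_tmul', smul_eq_mul]
    rfl
  have h1 : ∀ v : Fin n → E, φ (fun i => τ (v i)) = 0 := by
    intro v
    have h2 : (fun g : F ≃ₐ[ℚ] F => φ (fun i => τ (ρ g v i))) = 0 := by
      refine indep_emb ι _ fun x => ?_
      have h3 : φ (kap τ ι (av v x)) = 0 := hφ _ (Submodule.subset_span ⟨_, hav v x, rfl⟩)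
      rw [← h3]
      have h4 : kap τ ι (av v x) = ∑ g : F ≃ₐ[ℚ] F, ι (g x) • (fun i => τ (ρ g v i)) := by
        funext i
        rw [Finset.sum_apply]
        change evT τ ι (∑ g : F ≃ₐ[ℚ] F, (ρ g v i) ⊗ₜ (g x)) = _
        rw [map_sum]
        refine Finset.sum_congr rfl fun g _ => ?_
        rw [evT_tmul, Pi.smul_apply, smul_eq_mul, mul_comm]
      rw [h4, map_sum]
      refine Finset.sum_congr rfl fun g _ => ?_
      rw [map_smul, smul_eq_mul, mul_comm]
    have h3 := congrFun h2 1
    simpa using h3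
  refine LinearMap.pi_ext' fun i => LinearMap.ext_ring ?_
  have h2 := h1 (Pi.single i 1)
  have h3 : (fun j => τ ((Pi.single i 1 : Fin n → E) j)) = Pi.single i 1 := by
    funext j
    by_cases hj : j = i
    · subst hj; simp
    · rw [Pi.single_eq_of_ne hj, Pi.single_eq_of_ne hj, map_zero]
  rw [h3] at h2
  simpa using h2

/-- the image of a basis is a basis -/
theorem dRArt_finrank (ρ : Representation E (F ≃ₐ[ℚ] F) (Fin n → E)) (τ : E →+* ℂ)
    (ι : F →+* ℂ) : finrank E (dRArt ρ) = n := by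
  classical
  have : FiniteDimensional E (Fin n → E ⊗[ℚ] F) := inferInstance
  let a := finBasis E (dRArt ρ)
  have h1 : LinearIndependent ℂ (fun k => kap τ ι (a k : Fin n → E ⊗[ℚ] F)) :=
    kap_indep (fun k => (a k).2) (a.linearIndependent.map' (dRArt ρ).subtype
      (Submodule.ker_subtype _)) τ ι
  have h2 : Submodule.span ℂ (Set.range fun k => kap τ ι (a k : Fin n → E ⊗[ℚ] F)) = ⊤ := by
    rw [eq_top_iff, ← kap_span ρ τ ι, Submodule.span_le]
    rintro y ⟨b, hb, rfl⟩
    have h3 : b = ∑ k, a.repr ⟨b, hb⟩ k • (a k : Fin n → E ⊗[ℚ] F) := by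
      have h := congrArg (dRArt ρ).subtype (a.sum_repr ⟨b, hb⟩)
      rw [map_sum] at h
      exact h.symm
    have h4 : kap τ ι b = ∑ k, τ (a.repr ⟨b, hb⟩ k) • kap τ ι (a k : Fin n → E ⊗[ℚ] F) := by
      funext i
      conv_lhs => rw [h3]
      rw [Finset.sum_apply]
      change evT τ ι ((∑ k, a.repr ⟨b, hb⟩ k • (a k : Fin n → E ⊗[ℚ] F)) i) = _
      rw [Finset.sum_apply, map_sum]
      exact Finset.sum_congr rfl fun k _ => by rw [Pi.smul_apply, evT_smul]; rfl
    rw [SetLike.mem_coe, h4]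
    exact Submodule.sum_mem _ fun k _ => Submodule.smul_mem _ _
      (Submodule.subset_span ⟨k, rfl⟩)
  let bC := Basis.mk h1 (le_of_eq h2.symm)
  have h3 := finrank_eq_card_basis bC
  rw [finrank_fin_fun, Fintype.card_fin] at h3
  exact h3.symm

end

end Pool.Agent.K7.H1.DL
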