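import Pool.Agent.K7.H1.DL.Form
import Pool.Agent.R389.Grow
import Pool.Agent.TH170.MF.Field

/-!
# Determinants of complex representations of finite groups
-/

set_option autoImplicit false

namespace Pool.Agent.K7.H1.DL

open Module
open Pool.Agent.H541R3.ART Pool.Agent.R389 Pool.Agent.W446.AS

section

variable {G : Type} [Group G] [Finite G]

lemma hpow_zero {H A : Type} [Group H] [CommGroup A] (l : H →* A) : l ^ 0 = 1 := pow_zero l

lemma hpow_one {H A : Type} [Group H] [CommGroup A] (l : H →* A) : l ^ 1 = l := pow_one l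

lemma hpow_add {H A : Type} [Group H] [CommGroup A] (l : H →* A) (a b : ℕ) :
    l ^ (a + b) = l ^ a * l ^ b := pow_add l a b

open Classical in
/-- the determinant of an irreducible complex character -/
noncomputable def detC (χ : G → ℂ) : G →* ℂˣ :=
  if h : χ ∈ Irr G then detR h.choose_spec.choose else 1

/-- isomorphic representations have equal determinants -/
lemma detR_congr {k V W : Type} [Field k] [AddCommGroup V] [Module k V] [AddCommGroup W]
    [Module k W] {ρ : Representation k G V} {σ : Representation k G W} (e : ρ.Equiv σ) :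
    detR ρ = detR σ := by
  ext g
  rw [detR_apply, detR_apply, ← e.conj_apply_self]
  exact (LinearMap.det_conj (ρ g) e.toLinearEquiv).symm

lemma detR_of_irr {V : Type} [AddCommGroup V] [Module ℂ V] [FiniteDimensional ℂ V]
    {ρ : Representation ℂ G V} (hρ : ρ.IsIrreducible) (h : ρ.character ∈ Irr G) :
    detR ρ = detC ρ.character := by
  classical
  have : Fintype G := Fintype.ofFinite G
  rw [detC, dif_pos h]
  have h2 := h.choose_spec.choose_spec
  set σ := h.choose_spec.choose with hσ
  have hσi : σ.IsIrreducible := h2.1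
  have hc : ρ.character = σ.character := h2.2
  have hG : (Nat.card G : ℂ) ≠ 0 := by exact_mod_cast Nat.card_pos.ne'
  have : Invertible (Nat.card G : ℂ) := invertibleOfNonzero hG
  have h3 := Representation.char_orthonormal σ ρ
  have h4 : ∑ g : G, σ.character g * ρ.character g⁻¹ = (Nat.card G : ℂ) := by
    rw [← hc]
    exact pair_self h
  rw [h4, inv_mul_cancel₀ hG] at h3
  by_cases hne : Nonempty (ρ.Equiv σ)
  · exact detR_congr hne.some
  · rw [if_neg hne] at h3
    exact absurd h3 one_ne_zero

lemma decomp_unique {f : G → ℂ} {m m' : (G → ℂ) → ℕ} (h : IsDecomp f m) (h' : IsDecomp f m')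
    {χ : G → ℂ} (hχ : χ ∈ Irr G) : m χ = m' χ := by
  have h1 := h.pr hχ
  rw [h'.pr hχ] at h1
  exact_mod_cast h1.symm

lemma detC_prod_congr {f : G → ℂ} {m m' : (G → ℂ) → ℕ} (h : IsDecomp f m) (h' : IsDecomp f m') :
    ∏ χ ∈ irrF G, detC χ ^ m χ = ∏ χ ∈ irrF G, detC χ ^ m' χ :=
  Finset.prod_congr rfl fun χ hχ => by rw [decomp_unique h h' (mem_irrF.mp hχ)]

lemma decomp_self {χ : G → ℂ} (hχ : χ ∈ Irr G) [DecidableEq (G → ℂ)] :
    IsDecomp χ (fun χ' => if χ' = χ then 1 else 0) := by
  intro g
  rw [finsum_irr (fun χ' => (((if χ' = χ then 1 else 0 : ℕ)) : ℂ) * χ' g)]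
  rw [Finset.sum_eq_single χ]
  · simp
  · intro b _ hb
    simp [hb]
  · intro h
    exact absurd (mem_irrF.mpr hχ) h

lemma decomp_add {f f' : G → ℂ} {m m' : (G → ℂ) → ℕ} (h : IsDecomp f m) (h' : IsDecomp f' m') :
    IsDecomp (f + f') (fun χ => m χ + m' χ) := by
  intro g
  rw [Pi.add_apply, h g, h' g, finsum_irr (fun χ => (m χ : ℂ) * χ g),
    finsum_irr (fun χ => (m' χ : ℂ) * χ g), finsum_irr (fun χ => ((m χ + m' χ : ℕ) : ℂ) * χ g),
    ← Finset.sum_add_distrib]
  refine Finset.sum_congr rfl fun χ _ => ?_
  push_cast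
  ring

/-- **The determinant of a representation in terms of its character.** -/
theorem detR_eq_prod : ∀ (n : ℕ) {V : Type} [AddCommGroup V] [Module ℂ V] [FiniteDimensional ℂ V]
    (ρ : Representation ℂ G V) (_ : finrank ℂ V = n) {m : (G → ℂ) → ℕ}
    (_ : IsDecomp ρ.character m), detR ρ = ∏ χ ∈ irrF G, detC χ ^ m χ := by
  classical
  intro n
  induction n using Nat.strong_induction_on with
  | _ n ih =>
    intro V _ _ _ ρ hn m hm
    by_cases hV : Nontrivial V
    swap
    · rw [not_nontrivial_iff_subsingleton] at hV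
      have h0 : ρ.character = 0 := by
        funext g
        have : ρ g = 0 := by
          ext v
          exact Subsingleton.elim _ _
        change LinearMap.trace ℂ V (ρ g) = 0
        rw [this, map_zero]
      have h1 : ∀ χ ∈ irrF G, m χ = 0 := by
        intro χ hχ
        have h2 := hm.pr (mem_irrF.mp hχ)
        rw [h0, pr_zero_left] at h2
        exact_mod_cast h2.symm
      rw [Finset.prod_eq_one fun χ hχ => by rw [h1 χ hχ, hpow_zero]]
      ext g
      rw [detR_apply]
      have h2 : ρ g = LinearMap.id := by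
        ext v
        exact Subsingleton.elim _ _
      rw [h2, LinearMap.det_id]
      rfl
    by_cases hI : Irred ρ
    · have h1 := irr_of_irred hI
      have h2 := (irred_iff ρ).mp hI
      rw [detR_of_irr h2 h1, detC_prod_congr hm (decomp_self h1), Finset.prod_eq_single ρ.character]
      · rw [if_pos rfl, hpow_one]
      · intro b _ hb
        rw [if_neg hb, hpow_zero]
      · intro h
        exact absurd (mem_irrF.mpr h1) h
    have : ∃ W : Submodule ℂ V, (∀ g, ∀ v ∈ W, ρ g v ∈ W) ∧ W ≠ ⊥ ∧ W ≠ ⊤ := by
      by_contra hcon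
      push Not at hcon
      apply hI
      refine ⟨hV, fun W hW => ?_⟩
      by_cases h : W = ⊥
      · left; exact h
      · right; exact hcon W hW h
    obtain ⟨W, hW, hb, ht⟩ := this
    let W1 : Subrepresentation ρ := ⟨W, fun g v hv => hW g v hv⟩
    have : NeZero (Nat.card G : ℂ) := ⟨by exact_mod_cast Nat.card_pos.ne'⟩
    obtain ⟨W2, hc⟩ := exists_isCompl W1
    have hc1 : IsCompl W1.toSubmodule W2.toSubmodule := by
      refine ⟨?_, ?_⟩
      · rw [disjoint_iff]
        have := hc.inf_eq_bot
        exact congrArg Subrepresentation.toSubmodule this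
      · rw [codisjoint_iff]
        have := hc.sup_eq_top
        exact congrArg Subrepresentation.toSubmodule this
    have hb2 : W2.toSubmodule ≠ ⊤ := by
      intro h
      apply hb
      have h1 := hc1.inf_eq_bot
      rw [h, inf_top_eq] at h1
      exact h1
    have hlt1 : Module.finrank ℂ W1.toSubmodule < n := by
      rw [← hn]
      exact Submodule.finrank_lt ht
    have hlt2 : Module.finrank ℂ W2.toSubmodule < n := by
      rw [← hn]
      exact Submodule.finrank_lt hb2
    obtain ⟨m1, hm1⟩ := decomp_of_closure (char_memP _ W1.toRepresentation rfl)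
    obtain ⟨m2, hm2⟩ := decomp_of_closure (char_memP _ W2.toRepresentation rfl)
    have h1 := ih _ hlt1 W1.toRepresentation rfl hm1
    have h2 := ih _ hlt2 W2.toRepresentation rfl hm2
    have h3 : ρ.character = W1.toRepresentation.character + W2.toRepresentation.character := by
      funext g
      let N : Bool → Submodule ℂ V := fun b => cond b W1.toSubmodule W2.toSubmodule
      have hint : DirectSum.IsInternal N := by
        rw [DirectSum.isInternal_submodule_iff_isCompl N (i := true) (j := false) (by simp)
          (by ext b; cases b <;> simp)]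
        exact hc1
      have h4 := LinearMap.trace_eq_sum_trace_restrict hint (f := ρ g) (by
        intro b v hv
        cases b
        · exact W2.apply_mem_toSubmodule g hv
        · exact W1.apply_mem_toSubmodule g hv)
      rw [Fintype.sum_bool] at h4
      exact h4
    have h5 : detR ρ = detR W1.toRepresentation * detR W2.toRepresentation := by
      ext g
      rw [MonoidHom.mul_apply, Units.val_mul, detR_apply, detR_apply, detR_apply,
        ← LinearMap.det_prodMap]
      let e := Submodule.prodEquivOfIsCompl _ _ hc1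
      have h6 : ρ g = (e : (W1.toSubmodule × W2.toSubmodule) →ₗ[ℂ] V) ∘ₗ
          ((W1.toRepresentation g).prodMap (W2.toRepresentation g)) ∘ₗ
          (e.symm : V →ₗ[ℂ] (W1.toSubmodule × W2.toSubmodule)) := by
        apply LinearMap.ext
        intro v
        obtain ⟨⟨x, y⟩, rfl⟩ := e.surjective v
        simp only [LinearMap.comp_apply, LinearEquiv.coe_coe, LinearEquiv.symm_apply_apply,
          LinearMap.prodMap_apply]
        rw [Submodule.coe_prodEquivOfIsCompl', Submodule.coe_prodEquivOfIsCompl', map_add]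
        rfl
      rw [h6, LinearMap.det_conj]
    rw [h5, h1, h2, ← Finset.prod_mul_distrib]
    rw [h3] at hm
    have h7 := decomp_add hm1 hm2
    refine Finset.prod_congr rfl fun χ hχ => ?_
    rw [← hpow_add]
    congr 1
    exact decomp_unique h7 hm (mem_irrF.mp hχ)

/-- base change of a matrix representation -/
noncomputable def bc {E : Type} [Field E] (τ : E →+* ℂ) {n : ℕ}
    (ρ : Representation E G (Fin n → E)) : Representation ℂ G (Fin n → ℂ) where
  toFun g := Matrix.toLin' ((LinearMap.toMatrix' (ρ g)).map τ)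
  map_one' := by
    rw [map_one]
    have h1 : LinearMap.toMatrix' (1 : (Fin n → E) →ₗ[E] (Fin n → E)) = 1 :=
      LinearMap.toMatrix'_one
    rw [h1, Matrix.map_one τ (map_zero τ) (map_one τ), Matrix.toLin'_one]
    rfl
  map_mul' x y := by
    rw [map_mul, LinearMap.toMatrix'_mul, Matrix.map_mul, Matrix.toLin'_mul]
    rfl

lemma bc_char {E : Type} [Field E] (τ : E →+* ℂ) {n : ℕ}
    (ρ : Representation E G (Fin n → E)) (g : G) : (bc τ ρ).character g = τ (ρ.character g) := by
  change LinearMap.trace ℂ _ (Matrix.toLin' ((LinearMap.toMatrix' (ρ g)).map τ))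
    = τ (LinearMap.trace E _ (ρ g))
  rw [Matrix.trace_toLin'_eq, LinearMap.trace_eq_matrix_trace E (Pi.basisFun E (Fin n)) (ρ g),
    Matrix.trace, Matrix.trace, map_sum]
  rfl

lemma bc_det {E : Type} [Field E] (τ : E →+* ℂ) {n : ℕ}
    (ρ : Representation E G (Fin n → E)) (g : G) :
    ((detR (bc τ ρ) g : ℂˣ) : ℂ) = τ ((detR ρ g : Eˣ) : E) := by
  rw [detR_apply, detR_apply]
  change LinearMap.det (Matrix.toLin' ((LinearMap.toMatrix' (ρ g)).map τ)) = _
  rw [LinearMap.det_toLin', ← LinearMap.det_toMatrix', RingHom.map_det]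
  rfl

/-- **The determinant of a representation over `E`.** -/
theorem detR_bc {E : Type} [Field E] (τ : E →+* ℂ) {n : ℕ}
    (ρ : Representation E G (Fin n → E)) {m : (G → ℂ) → ℕ}
    (hm : IsDecomp (fun g => τ (ρ.character g)) m) (g : G) :
    τ ((detR ρ g : Eˣ) : E) = ∏ χ ∈ irrF G, ((detC χ g : ℂˣ) : ℂ) ^ m χ := by
  rw [← bc_det]
  have h1 : IsDecomp (bc τ ρ).character m := by
    have : (bc τ ρ).character = fun g => τ (ρ.character g) := funext fun g => bc_char τ ρ g
    rw [this]
    exact hm
  rw [detR_eq_prod _ (bc τ ρ) rfl h1]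
  simp

end

end Pool.Agent.K7.H1.DL
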