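import Pool.Agent.K7.H1.DL.Bridge

/-!
# Transport of representations with conditions
-/

set_option autoImplicit false

namespace Pool.Agent.K7.H1.DL

open Module
open Pool.Agent.H541R3.ART Pool.Agent.R389 Pool.Agent.W446.AS

/-- transport of a representation to `E^n` -/
lemma exists_fin_rep' {G : Type} [Group G] {E : Type} [Field E] {W : Type} [AddCommGroup W]
    [Module E W] [FiniteDimensional E W] (σ : Representation E G W) :
    ∃ (n : ℕ) (ρ : Representation E G (Fin n → E)), ρ.character = σ.character ∧
      ∀ (g : G) (a : E), (∀ w, σ g w = a • w) → ∀ v, ρ g v = a • v := by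
  let e : W ≃ₗ[E] (Fin (finrank E W) → E) := (finBasis E W).equivFun
  refine ⟨finrank E W,
    { toFun := fun g => e.conj (σ g)
      map_one' := by
        ext v
        simp [LinearEquiv.conj_apply]
      map_mul' := by
        intro a b
        ext v
        simp [LinearEquiv.conj_apply] }, ?_, ?_⟩
  · funext g
    exact LinearMap.trace_conj' (σ g) e
  · intro g a h v
    change e (σ g (e.symm v)) = a • v
    rw [h, map_smul, LinearEquiv.apply_symm_apply]

end Pool.Agent.K7.H1.DL
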