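import Pool.Agent.K7.H1.DL.IndRep
import Pool.Agent.R389.RatMain2

/-!
# Deligne's conjecture for `M ⊗ ρ` in terms of characters
-/

set_option autoImplicit false
set_option linter.unusedSectionVars false

namespace Pool.Agent.K7.H1.DL

open scoped TensorProduct
open Module Filter Topology
open Pool.Agent.H541R3.ART Pool.Agent.R389 Pool.Agent.W446.AS

section sign

variable {G : Type} [Group G] {E : Type} [Field E] [CharZero E] {n : ℕ}

/-- an eigenbasis of the value of a representation at an involution -/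
lemma exists_sign (ρ : Representation E G (Fin n → E)) {c : G} (hc : c * c = 1) :
    ∃ (v : Basis (Fin n) E (Fin n → E)) (ε : Fin n → Bool) (np nm : ℕ),
      (∀ j, ρ c (v j) = ((sg (ε j) : ℚ) : E) • v j) ∧ ρ.character 1 = np + nm ∧
      ρ.character c = np - nm ∧ ∀ C : Bool → ℂ, ∏ j, C (ε j) = C true ^ np * C false ^ nm := by
  classical
  obtain ⟨v, ε, hv⟩ := exists_eig (f := ρ c) (by
    intro x
    have h1 : ρ c (ρ c x) = ρ (c * c) x := by rw [map_mul]; rfl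
    rw [h1, hc, map_one]
    rfl)
  have htr : ρ.character c = ∑ j, ((sg (ε j) : ℚ) : E) := by
    change LinearMap.trace E _ (ρ c) = _
    rw [LinearMap.trace_eq_matrix_trace E v (ρ c), Matrix.trace]
    refine Finset.sum_congr rfl fun j _ => ?_
    rw [Matrix.diag_apply, LinearMap.toMatrix_apply, hv, map_smul, Finsupp.smul_apply,
      Basis.repr_self, Finsupp.single_eq_same, smul_eq_mul, mul_one]
  refine ⟨v, ε, (Finset.univ.filter fun j => ε j = true).card,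
    (Finset.univ.filter fun j => ¬ ε j = true).card, hv, ?_, ?_, ?_⟩
  · rw [← Nat.cast_add, Finset.card_filter_add_card_filter_not]
    change LinearMap.trace E _ (ρ 1) = _
    rw [map_one, LinearMap.trace_one, finrank_fin_fun, Finset.card_univ, Fintype.card_fin]
  · rw [htr, ← Finset.sum_filter_add_sum_filter_not Finset.univ (fun j => ε j = true)]
    rw [Finset.sum_congr rfl (g := fun _ => (1 : E)) (by
      intro j hj
      rw [(Finset.mem_filter.mp hj).2]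
      simp [sg])]
    rw [Finset.sum_congr (s₁ := Finset.univ.filter fun j => ¬ ε j = true) rfl
      (g := fun _ => (-1 : E)) (by
      intro j hj
      have h1 := (Finset.mem_filter.mp hj).2
      rw [Bool.not_eq_true] at h1
      rw [h1]
      simp [sg])]
    rw [Finset.sum_const, Finset.sum_const]
    simp
    ring
  · intro C
    rw [← Finset.prod_filter_mul_prod_filter_not Finset.univ (fun j => ε j = true)]
    rw [Finset.prod_congr rfl (g := fun _ => C true) (by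
      intro j hj
      rw [(Finset.mem_filter.mp hj).2])]
    rw [Finset.prod_congr (s₁ := Finset.univ.filter fun j => ¬ ε j = true) rfl
      (g := fun _ => C false) (by
      intro j hj
      have h1 := (Finset.mem_filter.mp hj).2
      rw [Bool.not_eq_true] at h1
      rw [h1])]
    rw [Finset.prod_const, Finset.prod_const]

end sign

section

variable {F : Type} [Field F] [NumberField F] [IsGalois ℚ F]

/-- the formula for the period -/
noncomputable def XX {E : Type} [Field E] [CharZero E] (Cp Cm : ℂ) (h np nm : ℕ) (ι : F →+* ℂ)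
    (D : E ⊗[ℚ] F) (τ : E →+* ℂ) : ℂ :=
  Cp ^ np * Cm ^ nm * (evT τ ι D ^ h)⁻¹

lemma XX_ne {E : Type} [Field E] [CharZero E] {Cp Cm : ℂ} (hp : Cp ≠ 0) (hm : Cm ≠ 0)
    (h np nm : ℕ) (ι : F →+* ℂ) {l : (F ≃ₐ[ℚ] F) →* Eˣ} {D : E ⊗[ℚ] F} (hD : D ∈ line l)
    (hD0 : D ≠ 0) (τ : E →+* ℂ) : XX Cp Cm h np nm ι D τ ≠ 0 :=
  mul_ne_zero (mul_ne_zero (pow_ne_zero _ hp) (pow_ne_zero _ hm))
    (inv_ne_zero (pow_ne_zero _ (line_ev hD hD0 τ ι)))

/-- the periods of `M ⊗ ρ` -/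
theorem periods {M : Motive} {h : ℕ} {t : Basis (Fin h) ℚ M.T} {b : Basis (Bool × Fin h) ℚ M.B}
    (hb : ∀ δ k, M.frob (b (δ, k)) = sg δ • b (δ, k)) {c : F ≃ₐ[ℚ] F} (hc : c * c = 1)
    {E : Type} [Field E] [CharZero E] (τ₀ : E →+* ℂ) (ι : F →+* ℂ) {n : ℕ}
    (ρ : Representation E (F ≃ₐ[ℚ] F) (Fin n → E)) :
    ∃ (np nm : ℕ) (D : E ⊗[ℚ] F), D ∈ line (detR ρ) ∧ D ≠ 0 ∧ ρ.character 1 = np + nm ∧
      ρ.character c = np - nm ∧ (∃ x, IsPeriod M ι c ρ x) ∧
      ∀ x, IsPeriod M ι c ρ x → ∃ e : E, e ≠ 0 ∧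
        ∀ τ, x τ = τ e * XX (cM M t b true) (cM M t b false) h np nm ι D τ := by
  obtain ⟨v, ε, np, nm, hv, h1, h2, h3⟩ := exists_sign ρ hc
  obtain ⟨D, hD, hD0⟩ := line_exists τ₀ ι (detR ρ)
  refine ⟨np, nm, D, hD, hD0, h1, h2, exists_period hb hv τ₀ ι t, fun x hx => ?_⟩
  obtain ⟨e, he, hxe⟩ := period_formula (t := t) hb hv τ₀ ι hD hD0 hx
  refine ⟨e, he, fun τ => ?_⟩
  rw [hxe τ, h3 (cM M t b), XX]

variable {E : Type} [Field E] [NumberField E]

/-- the product of the local factors, coefficients in `E` -/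
theorem prod_PP {ζ : E} (hζ : IsPrimitiveRoot ζ (Monoid.exponent (F ≃ₐ[ℚ] F))) {c : F ≃ₐ[ℚ] F}
    (hc : c * c = 1) (ι : F →+* ℂ) (τ₀ : E →+* ℂ) (Cp Cm : ℂ) (h : ℕ) {n : ℕ}
    (ρ : Representation E (F ≃ₐ[ℚ] F) (Fin n → E)) {np nm : ℕ} {D : E ⊗[ℚ] F}
    (hD : D ∈ line (detR ρ)) (hD0 : D ≠ 0) (h1 : ρ.character 1 = np + nm)
    (h2 : ρ.character c = np - nm) :
    ∃ e : E, e ≠ 0 ∧ ∀ (τ : E →+* ℂ) (m : ((F ≃ₐ[ℚ] F) → ℂ) → ℕ),
      IsDecomp (fun g => τ (ρ.character g)) m →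
      ∏ᶠ χ ∈ Irr (F ≃ₐ[ℚ] F), PP Cp Cm h ι c τ χ ^ m χ = τ e * XX Cp Cm h np nm ι D τ := by
  refine consistency hζ hc ι τ₀ Cp Cm h (decomp_of_closure (base_change τ₀ ρ)) ?_ h1 h2 hD hD0
  intro τ m hm g
  exact detR_bc τ ρ hm g

/-- the map of the coefficients -/
noncomputable def jE (E F : Type) [Field E] [CharZero E] [Field F] [NumberField F] :
    ℚ ⊗[ℚ] F →ₐ[ℚ] E ⊗[ℚ] F :=
  Algebra.TensorProduct.map (Algebra.ofId ℚ E) (AlgHom.id ℚ F)

lemma jE_tmul (q : ℚ) (x : F) : jE E F (q ⊗ₜ x) = (algebraMap ℚ E q) ⊗ₜ x := by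
  rw [jE, Algebra.TensorProduct.map_tmul]
  rfl

lemma jE_gal (g : F ≃ₐ[ℚ] F) (a : ℚ ⊗[ℚ] F) : jE E F (galT ℚ g a) = galT E g (jE E F a) := by
  induction a using TensorProduct.induction_on with
  | zero => simp
  | tmul q x => rw [galT_tmul, jE_tmul, jE_tmul, galT_tmul]
  | add a b ha hb => rw [map_add, map_add, ha, hb, map_add, map_add]

lemma jE_smul (q : ℚ) (a : ℚ ⊗[ℚ] F) : jE E F (q • a) = (algebraMap ℚ E q) • jE E F a := by
  rw [map_smul]
  exact (algebraMap_smul E q (jE E F a)).symm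

lemma evT_jE (τ : E →+* ℂ) (ι : F →+* ℂ) (a : ℚ ⊗[ℚ] F) :
    evT τ ι (jE E F a) = evT (τ.comp (algebraMap ℚ E)) ι a := by
  induction a using TensorProduct.induction_on with
  | zero => simp
  | tmul q x => rw [jE_tmul, evT_tmul, evT_tmul]; rfl
  | add a b ha hb => rw [map_add, map_add, ha, hb, map_add]

/-- the product of the local factors, rational coefficients -/
theorem prod_PP_rat {ζ : E} (hζ : IsPrimitiveRoot ζ (Monoid.exponent (F ≃ₐ[ℚ] F)))
    {c : F ≃ₐ[ℚ] F} (hc : c * c = 1) (ι : F →+* ℂ) (τ₀ : E →+* ℂ) (Cp Cm : ℂ) (h : ℕ) {n : ℕ}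
    (ρ : Representation ℚ (F ≃ₐ[ℚ] F) (Fin n → ℚ)) {np nm : ℕ} {D : ℚ ⊗[ℚ] F}
    (hD : D ∈ line (detR ρ)) (hD0 : D ≠ 0) (h1 : ρ.character 1 = np + nm)
    (h2 : ρ.character c = np - nm) :
    ∃ e : E, e ≠ 0 ∧ ∀ (τ : E →+* ℂ) (m : ((F ≃ₐ[ℚ] F) → ℂ) → ℕ),
      IsDecomp (fun g => ((ρ.character g : ℚ) : ℂ)) m →
      ∏ᶠ χ ∈ Irr (F ≃ₐ[ℚ] F), PP Cp Cm h ι c τ χ ^ m χ
        = τ e * XX Cp Cm h np nm ι D (algebraMap ℚ ℂ) := by
  have hτ : ∀ τ : E →+* ℂ, τ.comp (algebraMap ℚ E) = algebraMap ℚ ℂ := fun τ =>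
    Subsingleton.elim _ _
  have hD' : jE E F D ∈ line ((Units.map (algebraMap ℚ E).toMonoidHom).comp (detR ρ)) := by
    intro g
    have h3 := congrArg (jE E F) (hD g)
    rw [jE_smul, jE_gal] at h3
    exact h3
  have hev : ∀ τ : E →+* ℂ, evT τ ι (jE E F D) = evT (algebraMap ℚ ℂ) ι D := by
    intro τ
    rw [evT_jE, hτ]
  have hD0' : jE E F D ≠ 0 := by
    intro h3
    have h4 := hev τ₀
    rw [h3, map_zero] at h4
    exact line_ev hD hD0 _ ι h4.symm
  have hF : ∀ τ : E →+* ℂ, (fun g => τ (algebraMap ℚ E (ρ.character g)))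
      = fun g => ((ρ.character g : ℚ) : ℂ) := by
    intro τ
    funext g
    rw [eq_ratCast, map_ratCast]
  obtain ⟨e, he, h3⟩ := consistency (f := fun g => algebraMap ℚ E (ρ.character g)) hζ hc ι τ₀
    Cp Cm h (by
      rw [hF]
      have h4 := base_change (algebraMap ℚ ℂ) ρ
      obtain ⟨m, hm⟩ := decomp_of_closure h4
      refine ⟨m, ?_⟩
      simpa using hm) (l := (Units.map (algebraMap ℚ E).toMonoidHom).comp (detR ρ)) (by
      intro τ m hm g
      rw [hF] at hm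
      have h4 := detR_bc (algebraMap ℚ ℂ) ρ (m := m) (by simpa using hm) g
      rw [← h4, ← hτ τ]
      rfl) (np := np) (nm := nm) (by rw [h1]; simp) (by rw [h2]; simp) hD' hD0'
  refine ⟨e, he, fun τ m hm => ?_⟩
  have h4 := h3 τ m (by rw [hF]; exact hm)
  rw [h4, hev, XX]

end

end Pool.Agent.K7.H1.DL
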