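import Pool.Agent.K7.H1.DL.Per

/-!
# The formula for Deligne's periods of `M ⊗ ρ`
-/

set_option autoImplicit false

namespace Pool.Agent.K7.H1.DL

open scoped TensorProduct Kronecker
open Module

section

variable {F : Type} [Field F] [NumberField F] {E : Type} [Field E] [CharZero E] {n h : ℕ}
  {M : Motive}

/-- the comparison map on the Betti realization with coefficients -/
noncomputable def cmp (M : Motive) (τ : E →+* ℂ) (x : E ⊗[ℚ] M.B) : ℂ ⊗[ℚ] M.T :=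
  M.IT (τ.toRatAlgHom.toLinearMap.rTensor M.B x)

lemma rT_smul (M : Motive) (τ : E →+* ℂ) (e : E) (x : E ⊗[ℚ] M.B) :
    τ.toRatAlgHom.toLinearMap.rTensor M.B (e • x)
      = τ e • τ.toRatAlgHom.toLinearMap.rTensor M.B x := by
  induction x using TensorProduct.induction_on with
  | zero => simp
  | tmul z b =>
    rw [TensorProduct.smul_tmul', LinearMap.rTensor_tmul, LinearMap.rTensor_tmul,
      TensorProduct.smul_tmul']
    congr 1
    change τ (e • z) = τ e • τ z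
    rw [smul_eq_mul, smul_eq_mul, map_mul]
  | add a b ha hb => rw [smul_add, map_add, ha, hb, map_add, smul_add]

lemma cmp_smul (τ : E →+* ℂ) (e : E) (x : E ⊗[ℚ] M.B) : cmp M τ (e • x) = τ e • cmp M τ x := by
  rw [cmp, rT_smul, map_smul]
  rfl

lemma cmp_sum (τ : E →+* ℂ) {κ : Type*} (s : Finset κ) (x : κ → E ⊗[ℚ] M.B) :
    cmp M τ (∑ k ∈ s, x k) = ∑ k ∈ s, cmp M τ (x k) := by
  rw [cmp, map_sum, map_sum]
  rfl

lemma cmp_tmul (τ : E →+* ℂ) (e : E) (b : M.B) :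
    cmp M τ (e ⊗ₜ b) = τ e • M.IT ((1 : ℂ) ⊗ₜ[ℚ] b) := by
  rw [cmp, LinearMap.rTensor_tmul, ← map_smul, TensorProduct.smul_tmul', smul_eq_mul, mul_one]
  rfl

/-- coordinates -/
noncomputable def Wm {T : Type} [AddCommGroup T] [Module ℚ T] (t : Basis (Fin h) ℚ T)
    (w : Fin n × Fin h → Fin n → ℂ ⊗[ℚ] T) : Matrix (Fin n × Fin h) (Fin n × Fin h) ℂ :=
  Matrix.of fun p q => (t.baseChange ℂ).repr (w p q.1) q.2

section coord

variable {T : Type} [AddCommGroup T] [Module ℚ T] {t : Basis (Fin h) ℚ T}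
  {w u : Fin n × Fin h → Fin n → ℂ ⊗[ℚ] T}

lemma Wm_mul {C : Matrix (Fin n × Fin h) (Fin n × Fin h) ℂ}
    (hC : ∀ p i, w p i = ∑ q, C p q • u q i) : Wm t w = C * Wm t u := by
  ext p r
  rw [Matrix.mul_apply, Wm, Matrix.of_apply, hC, map_sum, Finsupp.coe_finsetSum,
    Finset.sum_apply]
  refine Finset.sum_congr rfl fun q _ => ?_
  rw [map_smul]
  rfl

lemma Wm_inv (hu : (Wm t u).det ≠ 0) :
    ∃ C : Matrix (Fin n × Fin h) (Fin n × Fin h) ℂ, ∀ p i, w p i = ∑ q, C p q • u q i := by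
  refine ⟨Wm t w * (Wm t u)⁻¹, fun p i => ?_⟩
  refine (t.baseChange ℂ).ext_elem fun k => ?_
  have h1 : Wm t w = (Wm t w * (Wm t u)⁻¹) * Wm t u := by
    rw [Matrix.mul_assoc, Matrix.nonsing_inv_mul _ (isUnit_iff_ne_zero.mpr hu), Matrix.mul_one]
  have h2 := congrFun (congrFun h1 p) (i, k)
  rw [Matrix.mul_apply] at h2
  have h3 : Wm t w p (i, k) = (t.baseChange ℂ).repr (w p i) k := rfl
  rw [← h3, h2, map_sum, Finsupp.coe_finsetSum, Finset.sum_apply]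
  refine Finset.sum_congr rfl fun q _ => ?_
  rw [map_smul]
  rfl

lemma Wm_u (τ : E →+* ℂ) (ι : F →+* ℂ) (a : Fin n → Fin n → E ⊗[ℚ] F)
    (t' : Fin h → T) : Wm t (fun q i => evT τ ι (a q.1 i) ⊗ₜ[ℚ] t' q.2)
      = (Matrix.of fun j i => evT τ ι (a j i)) ⊗ₖ
        (Matrix.of fun k l => ((t.repr (t' k) l : ℚ) : ℂ)) := by
  ext p q
  rw [Wm, Matrix.of_apply, Matrix.kronecker_apply, Matrix.of_apply, Matrix.of_apply,
    Basis.baseChange_repr_tmul, Algebra.smul_def, mul_comm]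
  rfl

lemma det_Wm_u (τ : E →+* ℂ) (ι : F →+* ℂ) (a : Fin n → Fin n → E ⊗[ℚ] F)
    (t' : Fin h → T) : (Wm t (fun q i => evT τ ι (a q.1 i) ⊗ₜ[ℚ] t' q.2)).det
      = evT τ ι (adet a) ^ h * (((t.toMatrix t').det : ℚ) : ℂ) ^ n := by
  rw [Wm_u, Matrix.det_kronecker, Fintype.card_fin, Fintype.card_fin]
  congr 2
  · rw [evT_adet, ← Matrix.det_transpose]
    rfl
  · rw [← Matrix.det_transpose, Rat.cast_det]
    rfl

end coord

/-- the comparison determinants of the eigenspaces -/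
noncomputable def cM (M : Motive) (t : Basis (Fin h) ℚ M.T) (b : Basis (Bool × Fin h) ℚ M.B)
    (δ : Bool) : ℂ :=
  ((t.baseChange ℂ).toMatrix (fun k => M.IT ((1 : ℂ) ⊗ₜ[ℚ] b (δ, k)))).det

lemma Wm_b0 (t : Basis (Fin h) ℚ M.T) (b : Basis (Bool × Fin h) ℚ M.B)
    (v : Basis (Fin n) E (Fin n → E)) (ε : Fin n → Bool) (τ : E →+* ℂ) :
    Wm t (fun p i => cmp M τ (b0 b v ε p i))
      = ((Matrix.blockDiagonal fun j =>
          ((t.baseChange ℂ).toMatrix (fun k => M.IT ((1 : ℂ) ⊗ₜ[ℚ] b (ε j, k)))).transpose).submatrix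
          Prod.swap Prod.swap) *
        ((Matrix.of fun j i => τ (v j i)) ⊗ₖ (1 : Matrix (Fin h) (Fin h) ℂ)) := by
  ext ⟨j, k⟩ ⟨i, l⟩
  rw [Wm, Matrix.of_apply, Matrix.mul_apply, b0, cmp_tmul, map_smul, Fintype.sum_prod_type]
  simp only [Matrix.submatrix_apply, Matrix.kronecker_apply, Matrix.blockDiagonal_apply,
    Prod.swap, Matrix.of_apply, Matrix.one_apply, Matrix.transpose_apply, Basis.toMatrix_apply]
  rw [Finset.sum_eq_single j, Finset.sum_eq_single l]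
  · simp
    ring
  · intro m _ hm
    rw [if_neg hm, mul_zero, mul_zero]
  · intro hp
    exact absurd (Finset.mem_univ _) hp
  · intro m _ hm
    refine Finset.sum_eq_zero fun x _ => ?_
    rw [if_neg (Ne.symm hm), zero_mul]
  · intro hp
    exact absurd (Finset.mem_univ _) hp

lemma det_Wm_b0 (t : Basis (Fin h) ℚ M.T) (b : Basis (Bool × Fin h) ℚ M.B)
    (v : Basis (Fin n) E (Fin n → E)) (ε : Fin n → Bool) (τ : E →+* ℂ) :
    (Wm t (fun p i => cmp M τ (b0 b v ε p i))).det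
      = (∏ j, cM M t b (ε j)) * τ (Matrix.of fun j i => v j i).det ^ h := by
  have h1 : ∀ A : Matrix (Fin h × Fin n) (Fin h × Fin n) ℂ,
      (A.submatrix Prod.swap Prod.swap).det = A.det := fun A =>
    Matrix.det_submatrix_equiv_self (Equiv.prodComm (Fin n) (Fin h)) A
  rw [Wm_b0, Matrix.det_mul, h1, Matrix.det_blockDiagonal, Matrix.det_kronecker,
    Matrix.det_one, one_pow, mul_one, Fintype.card_fin, RingHom.map_det]
  congr 1
  exact Finset.prod_congr rfl fun j _ => by rw [Matrix.det_transpose]; rfl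

lemma det_Wm_comb (t : Basis (Fin h) ℚ M.T) {β β' : Fin n × Fin h → Fin n → E ⊗[ℚ] M.B}
    (γ : Matrix (Fin n × Fin h) (Fin n × Fin h) E) (hγ : ∀ p, β' p = ∑ q, γ p q • β q)
    (τ : E →+* ℂ) : (Wm t (fun p i => cmp M τ (β' p i))).det
      = τ γ.det * (Wm t (fun p i => cmp M τ (β p i))).det := by
  have h1 : Wm t (fun p i => cmp M τ (β' p i))
      = (γ.map τ) * Wm t (fun p i => cmp M τ (β p i)) := by
    refine Wm_mul fun p i => ?_
    change cmp M τ (β' p i) = _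
    rw [hγ, Finset.sum_apply, cmp_sum]
    refine Finset.sum_congr rfl fun q _ => ?_
    rw [Pi.smul_apply, cmp_smul]
    rfl
  rw [h1, Matrix.det_mul, RingHom.map_det]
  rfl

variable {c : F ≃ₐ[ℚ] F} {ρ : Representation E (F ≃ₐ[ℚ] F) (Fin n → E)} [IsGalois ℚ F]
  {t : Basis (Fin h) ℚ M.T} {b : Basis (Bool × Fin h) ℚ M.B}
  {v : Basis (Fin n) E (Fin n → E)} {ε : Fin n → Bool}

lemma det_v_ne (v : Basis (Fin n) E (Fin n → E)) : (Matrix.of fun j i => v j i).det ≠ 0 := by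
  have h1 : LinearIndependent E (Matrix.of fun j i => v j i).row := v.linearIndependent
  have h2 := Matrix.linearIndependent_rows_iff_isUnit.mp h1
  rw [Matrix.isUnit_iff_isUnit_det] at h2
  exact h2.ne_zero

lemma det_toMatrix_ne {κ k V : Type} [Fintype κ] [DecidableEq κ] [Field k] [AddCommMonoid V]
    [Module k V] (b b' : Basis κ k V) : (b.toMatrix b').det ≠ 0 := by
  intro h
  have h1 := congrArg Matrix.det (b.toMatrix_mul_toMatrix_flip b')
  rw [Matrix.det_mul, h, zero_mul, Matrix.det_one] at h1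
  exact zero_ne_one h1

/-- **The formula for the periods.** -/
theorem period_formula (hb : ∀ δ k, M.frob (b (δ, k)) = sg δ • b (δ, k))
    (hv : ∀ j, ρ c (v j) = ((sg (ε j) : ℚ) : E) • v j) (τ₀ : E →+* ℂ) (ι : F →+* ℂ)
    {D : E ⊗[ℚ] F} (hD : D ∈ line (detR ρ)) (hD0 : D ≠ 0)
    {x : (E →+* ℂ) → ℂ} (hx : IsPeriod M ι c ρ x) :
    ∃ e : E, e ≠ 0 ∧ ∀ τ : E →+* ℂ,
      x τ = τ e * ((∏ j, cM M t b (ε j)) * (evT τ ι D ^ h)⁻¹) := by
  classical
  obtain ⟨h', β', a', t', hC⟩ := hx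
  have hh : h' = h := by
    have h1 := finrank_eq_card_basis t
    have h2 := finrank_eq_card_basis t'
    rw [Fintype.card_fin] at h1 h2
    omega
  subst hh
  obtain ⟨β, hβ⟩ := exists_b0 (M := M) (ρ := ρ) (c := c) hb hv
  -- change of bases
  have hγ : ∀ p, (β' p : Fin n → E ⊗[ℚ] M.B)
      = ∑ q, (β.toMatrix β').transpose p q • (β q : Fin n → E ⊗[ℚ] M.B) := by
    intro p
    have h1 := congrArg (bPlus M c ρ).subtype (β.sum_toMatrix_smul_self β' p)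
    rw [map_sum] at h1
    exact h1.symm
  have hγ0 : (β.toMatrix β').transpose.det ≠ 0 := by
    rw [Matrix.det_transpose]
    exact det_toMatrix_ne β β'
  have ht0 : (t.toMatrix t').det ≠ 0 := by
    exact det_toMatrix_ne t t'
  have ha : ∀ j, (a' j : Fin n → E ⊗[ℚ] F) ∈ dRArt ρ := fun j => (a' j).2
  have hai : LinearIndependent E (fun j => (a' j : Fin n → E ⊗[ℚ] F)) :=
    a'.linearIndependent.map' (dRArt ρ).subtype (Submodule.ker_subtype _)
  obtain ⟨e₁, he₁⟩ := line_unique τ₀ ι hD hD0 (adet_mem ha)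
  have he₁0 : e₁ ≠ 0 := by
    intro h1
    have h2 := adet_ne ha hai τ₀ ι
    rw [he₁, h1, zero_smul] at h2
    exact h2 rfl
  refine ⟨(β.toMatrix β').transpose.det * (Matrix.of fun j i => v j i).det ^ h' *
    (e₁ ^ h' * algebraMap ℚ E ((t.toMatrix t').det ^ n))⁻¹, ?_, fun τ => ?_⟩
  · refine mul_ne_zero (mul_ne_zero hγ0 (pow_ne_zero _ (det_v_ne v))) (inv_ne_zero
      (mul_ne_zero (pow_ne_zero _ he₁0) ?_))
    rw [ne_eq, map_eq_zero]
    exact pow_ne_zero _ ht0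
  obtain ⟨C, hC1, hC2⟩ := hC τ
  have h1 := congrArg Matrix.det (Wm_mul (t := t) (w := fun p i => cmp M τ
    ((β' p : Fin n → E ⊗[ℚ] M.B) i)) (u := fun q i =>
      evT τ ι ((a' q.1 : Fin n → E ⊗[ℚ] F) i) ⊗ₜ[ℚ] t' q.2) hC1)
  rw [Matrix.det_mul, det_Wm_u τ ι (fun j => (a' j : Fin n → E ⊗[ℚ] F)) t',
    det_Wm_comb t _ hγ τ] at h1
  have h2 : (fun (p : Fin n × Fin h') (i : Fin n) => cmp M τ ((β p : Fin n → E ⊗[ℚ] M.B) i))
      = fun p i => cmp M τ (b0 b v ε p i) := by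
    funext p i
    rw [hβ]
  rw [h2, det_Wm_b0, he₁, evT_smul, ← hC2] at h1
  have h3 : evT τ ι D ≠ 0 := line_ev hD hD0 τ ι
  have h4 : τ e₁ ≠ 0 := (map_ne_zero τ).mpr he₁0
  have h5 : (((t.toMatrix t').det : ℚ) : ℂ) ≠ 0 := by exact_mod_cast ht0
  have h6 : τ (algebraMap ℚ E ((t.toMatrix t').det ^ n)) = (((t.toMatrix t').det : ℚ) : ℂ) ^ n := by
    rw [eq_ratCast, map_ratCast]
    push_cast
    rfl
  rw [map_mul, map_mul, map_inv₀, map_mul, map_pow, map_pow, h6]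
  field_simp
  rw [mul_pow] at h1
  linear_combination -h1

/-- **Periods exist.** -/
theorem exists_period (hb : ∀ δ k, M.frob (b (δ, k)) = sg δ • b (δ, k))
    (hv : ∀ j, ρ c (v j) = ((sg (ε j) : ℚ) : E) • v j) (τ₀ : E →+* ℂ) (ι : F →+* ℂ)
    (t : Basis (Fin h) ℚ M.T) :
    ∃ x : (E →+* ℂ) → ℂ, IsPeriod M ι c ρ x := by
  classical
  obtain ⟨β, hβ⟩ := exists_b0 (M := M) (ρ := ρ) (c := c) hb hv
  let a : Basis (Fin n) E (dRArt ρ) := finBasisOfFinrankEq E _ (dRArt_finrank ρ τ₀ ι)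
  have hai : LinearIndependent E (fun j => (a j : Fin n → E ⊗[ℚ] F)) :=
    a.linearIndependent.map' (dRArt ρ).subtype (Submodule.ker_subtype _)
  have h1 : ∀ τ : E →+* ℂ, ∃ C : Matrix (Fin n × Fin h) (Fin n × Fin h) ℂ,
      ∀ p i, M.IT (τ.toRatAlgHom.toLinearMap.rTensor M.B ((β p : Fin n → E ⊗[ℚ] M.B) i))
          = ∑ q, C p q • (evT τ ι ((a q.1 : Fin n → E ⊗[ℚ] F) i) ⊗ₜ[ℚ] t q.2) := by
    intro τ
    refine Wm_inv (t := t) (w := fun p i => cmp M τ ((β p : Fin n → E ⊗[ℚ] M.B) i))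
      (u := fun q i => evT τ ι ((a q.1 : Fin n → E ⊗[ℚ] F) i) ⊗ₜ[ℚ] t q.2) ?_
    rw [det_Wm_u τ ι (fun j => (a j : Fin n → E ⊗[ℚ] F)) t]
    refine mul_ne_zero (pow_ne_zero _ (evT_adet_ne (fun j => (a j).2) hai τ ι)) ?_
    rw [Basis.toMatrix_self, Matrix.det_one]
    simp
  choose C hC using h1
  exact ⟨fun τ => (C τ).det, h, β, a, t, fun τ => ⟨C τ, hC τ, rfl⟩⟩

end

end Pool.Agent.K7.H1.DL
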