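import Pool.Agent.K7.H1.DL.Cons

/-!
# Monomial characters are characters of representations
-/

set_option autoImplicit false

namespace Pool.Agent.K7.H1.DL

open Module
open Pool.Agent.H541R3.ART Pool.Agent.R389 Pool.Agent.W446.AS

/-- transport of a representation to `E^n` -/
lemma exists_fin_rep {G : Type} [Group G] {E : Type} [Field E] {W : Type} [AddCommGroup W]
    [Module E W] [FiniteDimensional E W] (σ : Representation E G W) :
    ∃ (n : ℕ) (ρ : Representation E G (Fin n → E)), ρ.character = σ.character := by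
  let e : W ≃ₗ[E] (Fin (finrank E W) → E) := (finBasis E W).equivFun
  refine ⟨finrank E W,
    { toFun := fun g => e.conj (σ g)
      map_one' := by
        ext v
        simp [LinearEquiv.conj_apply]
      map_mul' := by
        intro a b
        ext v
        simp [LinearEquiv.conj_apply] }, ?_⟩
  funext g
  exact LinearMap.trace_conj' (σ g) e

theorem exists_ind_rep {G : Type} [Group G] [Finite G] {E : Type} [Field E] [CharZero E]
    (U : Subgroup G) (ψ : U →* Eˣ) :
    ∃ (n : ℕ) (ρ : Representation E G (Fin n → E)),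
      ρ.character = ind U (fun u => ((ψ u : Eˣ) : E)) := by
  classical
  have : Fintype G := Fintype.ofFinite G
  have : Fintype U := Fintype.ofFinite U
  have hcard : (Nat.card U : E) ≠ 0 := by exact_mod_cast Nat.card_pos.ne'
  let T : G → ((G → E) →ₗ[E] (G → E)) := fun g => LinearMap.funLeft E E (fun x => g⁻¹ * x)
  have hT : ∀ g f x, T g f x = f (g⁻¹ * x) := fun _ _ _ => rfl
  let π : (G → E) →ₗ[E] (G → E) := (Nat.card U : E)⁻¹ •
    ∑ u : U, ((ψ u : Eˣ) : E) • LinearMap.funLeft E E (fun x => x * (u : G))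
  have hπ : ∀ f x, π f x = (Nat.card U : E)⁻¹ * ∑ u : U, ((ψ u : Eˣ) : E) * f (x * u) := by
    intro f x
    change ((Nat.card U : E)⁻¹ • ∑ u : U, ((ψ u : Eˣ) : E) •
      LinearMap.funLeft E E (fun x => x * (u : G))) f x = _
    rw [LinearMap.smul_apply, LinearMap.sum_apply, Pi.smul_apply, Finset.sum_apply, smul_eq_mul]
    rfl
  have hππ : ∀ f, π (π f) = π f := by
    intro f
    funext x
    rw [hπ (π f), hπ f x]
    have h1 : ∀ u : U, ((ψ u : Eˣ) : E) * π f (x * u)
        = (Nat.card U : E)⁻¹ * ∑ w : U, ((ψ w : Eˣ) : E) * f (x * w) := by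
      intro u
      rw [hπ, ← mul_assoc, mul_comm ((ψ u : Eˣ) : E), mul_assoc, Finset.mul_sum,
        ← Equiv.sum_comp (Equiv.mulLeft u) (fun w : U => ((ψ w : Eˣ) : E) * f (x * w))]
      congr 1
      refine Finset.sum_congr rfl fun w _ => ?_
      rw [Equiv.coe_mulLeft, map_mul, Units.val_mul, Subgroup.coe_mul]
      ring_nf
      rw [mul_assoc x]
    rw [Finset.sum_congr rfl fun u _ => h1 u, Finset.sum_const, Finset.card_univ, nsmul_eq_mul,
      ← Nat.card_eq_fintype_card, ← mul_assoc, ← mul_assoc, inv_mul_cancel₀ hcard, one_mul]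
  have hcomm : ∀ g f, T g (π f) = π (T g f) := by
    intro g f
    funext x
    rw [hT, hπ, hπ]
    congr 1
    refine Finset.sum_congr rfl fun u _ => ?_
    rw [hT, mul_assoc]
  let W : Submodule E (G → E) := LinearMap.range π
  have hst : ∀ g : G, ∀ v ∈ W, T g v ∈ W := by
    rintro g _ ⟨f, rfl⟩
    exact ⟨T g f, (hcomm g f).symm⟩
  let σ : Representation E G W :=
    { toFun := fun g => (T g).restrict (hst g)
      map_one' := by
        refine LinearMap.ext fun w => Subtype.ext ?_
        funext x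
        change (w : G → E) ((1 : G)⁻¹ * x) = (w : G → E) x
        rw [inv_one, one_mul]
      map_mul' := by
        intro a b
        refine LinearMap.ext fun w => Subtype.ext ?_
        funext x
        change (w : G → E) ((a * b)⁻¹ * x) = (w : G → E) (b⁻¹ * (a⁻¹ * x))
        rw [mul_inv_rev, mul_assoc] }
  obtain ⟨n, ρ, hρ⟩ := exists_fin_rep σ
  refine ⟨n, ρ, ?_⟩
  rw [hρ]
  funext g
  let F : (G → E) →ₗ[E] (G → E) := (T g).comp π
  have hF : ∀ v, F v ∈ W := fun v => hst g _ ⟨v, rfl⟩
  have h1 := LinearMap.trace_restrict_eq_of_forall_mem W F hF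
  have h2 : F.restrict (fun x _ => hF x) = σ g := by
    refine LinearMap.ext fun w => Subtype.ext ?_
    change T g (π w) = T g w
    obtain ⟨f, hf⟩ := w.2
    rw [← hf, hππ]
  have h3 : σ.character g = LinearMap.trace E (G → E) F := by
    rw [← h1, h2]
    rfl
  rw [h3, LinearMap.trace_eq_matrix_trace E (Pi.basisFun E G) F, Matrix.trace, ind_eq,
    Finset.mul_sum]
  refine Finset.sum_congr rfl fun x _ => ?_
  rw [Matrix.diag_apply, LinearMap.toMatrix_apply, Pi.basisFun_repr, Pi.basisFun_apply]
  change T g (π (Pi.single x 1)) x = _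
  rw [hT, hπ]
  congr 1
  have h4 : ∀ u : U, ((ψ u : Eˣ) : E) * (Pi.single x (1 : E) : G → E) (g⁻¹ * x * u)
      = if (u : G) = x⁻¹ * g * x then ((ψ u : Eˣ) : E) else 0 := by
    intro u
    by_cases hu : (u : G) = x⁻¹ * g * x
    · rw [if_pos hu, hu]
      have : g⁻¹ * x * (x⁻¹ * g * x) = x := by group
      rw [this, Pi.single_eq_same, mul_one]
    · rw [if_neg hu, Pi.single_eq_of_ne, mul_zero]
      intro h5
      apply hu
      calc (u : G) = x⁻¹ * g * (g⁻¹ * x * u) := by group
        _ = x⁻¹ * g * x := by rw [h5]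
  rw [Finset.sum_congr rfl fun u _ => h4 u, Pool.Agent.R389.ext]
  by_cases hx : x⁻¹ * g * x ∈ U
  · rw [dif_pos hx, Finset.sum_eq_single ⟨x⁻¹ * g * x, hx⟩]
    · rw [if_pos rfl]
    · intro u _ hu
      rw [if_neg]
      intro h5
      exact hu (Subtype.ext h5)
    · intro h
      exact absurd (Finset.mem_univ _) h
  · rw [dif_neg hx]
    refine Finset.sum_eq_zero fun u _ => ?_
    rw [if_neg]
    intro h5
    exact hx (h5 ▸ u.2)

end Pool.Agent.K7.H1.DL
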