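import Pool.Agent.K7.H1.DL.Desc

/-!
# The lines in `E ⊗ F` attached to linear characters
-/

set_option autoImplicit false

namespace Pool.Agent.K7.H1.DL

open scoped TensorProduct
open Module

section

variable {F : Type} [Field F] [NumberField F] {E : Type} [Field E] [CharZero E] {n : ℕ}

/-- the elements of `E ⊗ F` on which `G` acts through `l⁻¹` -/
noncomputable def line (l : (F ≃ₐ[ℚ] F) →* Eˣ) : Submodule E (E ⊗[ℚ] F) where
  carrier := {D | ∀ g, ((l g : Eˣ) : E) • galT E g D = D}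
  add_mem' := by
    intro a b ha hb g
    rw [map_add, smul_add, ha g, hb g]
  zero_mem' := by
    intro g
    simp
  smul_mem' := by
    intro e a ha g
    rw [map_smul, smul_comm, ha g]

lemma mem_line {l : (F ≃ₐ[ℚ] F) →* Eˣ} {D : E ⊗[ℚ] F} :
    D ∈ line l ↔ ∀ g, ((l g : Eˣ) : E) • galT E g D = D := Iff.rfl

lemma line_one : (1 : E ⊗[ℚ] F) ∈ line (1 : (F ≃ₐ[ℚ] F) →* Eˣ) := by
  intro g
  simp

lemma line_mul {l l' : (F ≃ₐ[ℚ] F) →* Eˣ} {D D' : E ⊗[ℚ] F} (h : D ∈ line l) (h' : D' ∈ line l') :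
    D * D' ∈ line (l * l') := by
  intro g
  rw [map_mul, MonoidHom.mul_apply, Units.val_mul, mul_smul, ← mul_smul_comm, ← smul_mul_assoc,
    h g, h' g]

lemma line_pow {l : (F ≃ₐ[ℚ] F) →* Eˣ} {D : E ⊗[ℚ] F} (h : D ∈ line l) (k : ℕ) :
    D ^ k ∈ line (l ^ k) := by
  induction k with
  | zero =>
    rw [pow_zero, show l ^ 0 = 1 from pow_zero l]
    exact line_one
  | succ k ih =>
    rw [pow_succ, show l ^ (k + 1) = l ^ k * l from pow_succ l k]
    exact line_mul ih h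

lemma line_prod {κ : Type*} (s : Finset κ) {l : κ → (F ≃ₐ[ℚ] F) →* Eˣ} {D : κ → E ⊗[ℚ] F}
    (h : ∀ k ∈ s, D k ∈ line (l k)) : ∏ k ∈ s, D k ∈ line (∏ k ∈ s, l k) := by
  classical
  induction s using Finset.induction_on with
  | empty => rw [Finset.prod_empty, Finset.prod_empty]; exact line_one
  | insert a s ha ih =>
    rw [Finset.prod_insert ha, Finset.prod_insert ha]
    exact line_mul (h a (Finset.mem_insert_self a s))
      (ih fun k hk => h k (Finset.mem_insert_of_mem hk))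

/-- the representation on `E^1` of a linear character -/
noncomputable def rep1 (l : (F ≃ₐ[ℚ] F) →* Eˣ) : Representation E (F ≃ₐ[ℚ] F) (Fin 1 → E) where
  toFun g := ((l g : Eˣ) : E) • LinearMap.id
  map_one' := by simp; rfl
  map_mul' a b := by
    ext
    simp
    ring

lemma rep1_matrix (l : (F ≃ₐ[ℚ] F) →* Eˣ) (g : F ≃ₐ[ℚ] F) (i j : Fin 1) :
    LinearMap.toMatrix' (rep1 l g) i j = ((l g : Eˣ) : E) := by
  rw [LinearMap.toMatrix'_apply]
  change ((l g : Eˣ) : E) • (Pi.single j 1 : Fin 1 → E) i = _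
  rw [Subsingleton.elim i j, Pi.single_eq_same, smul_eq_mul, mul_one]

lemma mem_dRArt_rep1 {l : (F ≃ₐ[ℚ] F) →* Eˣ} {a : Fin 1 → E ⊗[ℚ] F} :
    a ∈ dRArt (rep1 l) ↔ a 0 ∈ line l := by
  constructor
  · intro h g
    have h1 := h g 0
    rw [Fin.sum_univ_one, rep1_matrix] at h1
    exact h1
  · intro h g i
    rw [Fin.sum_univ_one, rep1_matrix, Subsingleton.elim i 0]
    exact h g

variable [IsGalois ℚ F]

lemma line_ev {l : (F ≃ₐ[ℚ] F) →* Eˣ} {D : E ⊗[ℚ] F} (h : D ∈ line l) (h0 : D ≠ 0)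
    (τ : E →+* ℂ) (ι : F →+* ℂ) : evT τ ι D ≠ 0 := by
  have h1 : LinearIndependent E (fun _ : Unit => (fun _ : Fin 1 => D)) := by
    refine LinearIndependent.of_subsingleton () ?_
    intro h2
    exact h0 (congrFun h2 0)
  have h2 := kap_indep (ρ := rep1 l) (fun _ => mem_dRArt_rep1.mpr h) h1 τ ι
  have h3 := h2.ne_zero ()
  intro h4
  apply h3
  funext i
  exact h4

lemma line_exists (τ : E →+* ℂ) (ι : F →+* ℂ) (l : (F ≃ₐ[ℚ] F) →* Eˣ) :
    ∃ D ∈ line l, D ≠ 0 := by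
  have h1 := dRArt_finrank (rep1 l) τ ι
  have h2 : 0 < finrank E (dRArt (rep1 l)) := by omega
  obtain ⟨⟨a, ha⟩, ha0⟩ := finrank_pos_iff_exists_ne_zero.mp h2
  refine ⟨a 0, mem_dRArt_rep1.mp ha, fun h => ha0 ?_⟩
  apply Subtype.ext
  funext i
  rw [Subsingleton.elim i 0]
  exact h

lemma line_unique (τ : E →+* ℂ) (ι : F →+* ℂ) {l : (F ≃ₐ[ℚ] F) →* Eˣ} {D D' : E ⊗[ℚ] F}
    (h : D ∈ line l) (h0 : D ≠ 0) (h' : D' ∈ line l) : ∃ e : E, D' = e • D := by
  have h1 := dRArt_finrank (rep1 l) τ ι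
  have h2 : (⟨fun _ => D, mem_dRArt_rep1.mpr h⟩ : dRArt (rep1 l)) ≠ 0 := by
    intro h3
    exact h0 (congrFun (congrArg Subtype.val h3) 0)
  obtain ⟨e, he⟩ := (finrank_eq_one_iff_of_nonzero' _ h2).mp h1
    ⟨fun _ => D', mem_dRArt_rep1.mpr h'⟩
  refine ⟨e, ?_⟩
  exact (congrFun (congrArg Subtype.val he) 0).symm

/-- the determinant character of a representation -/
noncomputable def detR {k G V : Type} [Field k] [Group G] [AddCommGroup V] [Module k V]
    (ρ : Representation k G V) : G →* kˣ :=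
  MonoidHom.toHomUnits ((LinearMap.det : (V →ₗ[k] V) →* k).comp ρ)

lemma detR_apply {k G V : Type} [Field k] [Group G] [AddCommGroup V] [Module k V]
    (ρ : Representation k G V) (g : G) : ((detR ρ g : kˣ) : k) = LinearMap.det (ρ g) := rfl

/-- the determinant of a family of elements of the de Rham realization -/
noncomputable def adet (a : Fin n → Fin n → E ⊗[ℚ] F) : E ⊗[ℚ] F :=
  (Matrix.of fun i j => a j i).det

omit [IsGalois ℚ F] in
lemma adet_mem {ρ : Representation E (F ≃ₐ[ℚ] F) (Fin n → E)} {a : Fin n → Fin n → E ⊗[ℚ] F}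
    (ha : ∀ j, a j ∈ dRArt ρ) : adet a ∈ line (detR ρ) := by
  intro g
  have h1 : (Matrix.of fun i j => a j i)
      = (LinearMap.toMatrix' (ρ g)).map (algebraMap E (E ⊗[ℚ] F)) *
        (Matrix.of fun i j => a j i).map (galT E g) := by
    ext i j
    rw [Matrix.mul_apply, Matrix.of_apply, ← ha j g i]
    refine Finset.sum_congr rfl fun l _ => ?_
    rw [Matrix.map_apply, Matrix.map_apply, Matrix.of_apply, Algebra.smul_def]
  have h2 := congrArg Matrix.det h1
  rw [Matrix.det_mul] at h2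
  have h3 : ((LinearMap.toMatrix' (ρ g)).map (algebraMap E (E ⊗[ℚ] F))).det
      = algebraMap E (E ⊗[ℚ] F) ((detR ρ g : Eˣ) : E) := by
    rw [detR_apply, ← LinearMap.det_toMatrix', RingHom.map_det]
    rfl
  have h4 : ((Matrix.of fun i j => a j i).map (galT E g)).det = galT E g (adet a) := by
    rw [adet, AlgHom.map_det]
    rfl
  rw [h3, h4] at h2
  rw [Algebra.smul_def]
  exact h2.symm

omit [IsGalois ℚ F] in
lemma evT_adet (τ : E →+* ℂ) (ι : F →+* ℂ) (a : Fin n → Fin n → E ⊗[ℚ] F) :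
    evT τ ι (adet a) = (Matrix.of fun i j => evT τ ι (a j i)).det := by
  rw [adet, RingHom.map_det]
  rfl

lemma evT_adet_ne {ρ : Representation E (F ≃ₐ[ℚ] F) (Fin n → E)}
    {a : Fin n → Fin n → E ⊗[ℚ] F} (ha : ∀ j, a j ∈ dRArt ρ) (hi : LinearIndependent E a)
    (τ : E →+* ℂ) (ι : F →+* ℂ) : evT τ ι (adet a) ≠ 0 := by
  have h1 := kap_indep ha hi τ ι
  rw [evT_adet, ← Matrix.det_transpose]
  have h2 : LinearIndependent ℂ (Matrix.of fun i j => evT τ ι (a j i)).transpose.row := h1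
  have h3 := Matrix.linearIndependent_rows_iff_isUnit.mp h2
  rw [Matrix.isUnit_iff_isUnit_det] at h3
  exact h3.ne_zero

lemma adet_ne {ρ : Representation E (F ≃ₐ[ℚ] F) (Fin n → E)}
    {a : Fin n → Fin n → E ⊗[ℚ] F} (ha : ∀ j, a j ∈ dRArt ρ) (hi : LinearIndependent E a)
    (τ : E →+* ℂ) (ι : F →+* ℂ) : adet a ≠ 0 := by
  intro h
  have := evT_adet_ne ha hi τ ι
  rw [h, map_zero] at this
  exact this rfl

end

end Pool.Agent.K7.H1.DL
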