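import Pool.Agent.K7.H1.DL.Line
import Pool.Agent.K7.H1.DL.Betti

/-!
# Bases of the realizations of `M ⊗ ρ`
-/

set_option autoImplicit false

namespace Pool.Agent.K7.H1.DL

open scoped TensorProduct
open Module

section eig

variable {E : Type} [Field E] [CharZero E] {n : ℕ}

/-- an eigenbasis of an involution -/
lemma exists_eig {f : (Fin n → E) →ₗ[E] (Fin n → E)} (hf : ∀ x, f (f x) = x) :
    ∃ (v : Basis (Fin n) E (Fin n → E)) (ε : Fin n → Bool),
      ∀ j, f (v j) = ((sg (ε j) : ℚ) : E) • v j := by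
  classical
  let V : Bool → Submodule E (Fin n → E) := fun δ => LinearMap.ker (f - ((sg δ : ℚ) : E) • LinearMap.id)
  have hV : ∀ {δ x}, x ∈ V δ ↔ f x = ((sg δ : ℚ) : E) • x := by
    intro δ x
    rw [LinearMap.mem_ker, LinearMap.sub_apply, LinearMap.smul_apply, LinearMap.id_apply,
      sub_eq_zero]
  have h2 : (2 : E) ≠ 0 := two_ne_zero
  have hsup : V true ⊔ V false = ⊤ := by
    rw [eq_top_iff]
    intro x _
    have h1 : x = (2 : E)⁻¹ • (x + f x) + (2 : E)⁻¹ • (x - f x) := by
      rw [← smul_add]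
      have : x + f x + (x - f x) = (2 : E) • x := by rw [two_smul]; abel
      rw [this, smul_smul, inv_mul_cancel₀ h2, one_smul]
    rw [h1]
    refine Submodule.add_mem_sup (Submodule.smul_mem _ _ ?_) (Submodule.smul_mem _ _ ?_)
    · rw [hV, map_add, hf]
      simp [sg, add_comm]
    · rw [hV, map_sub, hf]
      simp [sg]
  have hinf : V true ⊓ V false = ⊥ := by
    rw [eq_bot_iff]
    rintro x ⟨h3, h4⟩
    rw [Submodule.mem_bot]
    have h5 := hV.mp h3
    have h6 := hV.mp h4
    rw [h5] at h6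
    have h7 : (2 : E) • x = 0 := by
      have : ((sg true : ℚ) : E) • x = x := by simp [sg]
      rw [this] at h6
      have h8 : ((sg false : ℚ) : E) • x = -x := by simp [sg]
      rw [h8] at h6
      rw [two_smul]
      nth_rewrite 2 [h6]
      simp
    exact (smul_eq_zero.mp h7).resolve_left h2
  have hc : IsCompl (V true) (V false) := ⟨disjoint_iff.mpr hinf, codisjoint_iff.mpr hsup⟩
  let B := ((finBasis E (V true)).prod (finBasis E (V false))).map
    (Submodule.prodEquivOfIsCompl _ _ hc)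
  have hcard : Fintype.card (Fin (finrank E (V true)) ⊕ Fin (finrank E (V false)))
      = Fintype.card (Fin n) := by
    rw [← finrank_eq_card_basis B, finrank_fin_fun, Fintype.card_fin]
  let e := Fintype.equivOfCardEq hcard
  refine ⟨B.reindex e, fun j => (e.symm j).isLeft, fun j => ?_⟩
  rw [Basis.reindex_apply]
  rcases h : e.symm j with i | i
  · have h3 : B (Sum.inl i) = (finBasis E (V true) i : Fin n → E) := by
      simp [B, Basis.map_apply, Submodule.coe_prodEquivOfIsCompl']
    have h4 : (fun j => (e.symm j).isLeft) j = true := by simp only [h, Sum.isLeft_inl]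
    rw [h3, h4]
    exact hV.mp (finBasis E (V true) i).2
  · have h3 : B (Sum.inr i) = (finBasis E (V false) i : Fin n → E) := by
      simp [B, Basis.map_apply, Submodule.coe_prodEquivOfIsCompl']
    have h4 : (fun j => (e.symm j).isLeft) j = false := by simp only [h, Sum.isLeft_inr]
    rw [h3, h4]
    exact hV.mp (finBasis E (V false) i).2

end eig

section bplus

variable {F : Type} [Field F] [NumberField F] {E : Type} [Field E] [CharZero E] {n h : ℕ}
  {M : Motive} {c : F ≃ₐ[ℚ] F} {ρ : Representation E (F ≃ₐ[ℚ] F) (Fin n → E)}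
  (b : Basis (Bool × Fin h) ℚ M.B) (v : Basis (Fin n) E (Fin n → E)) (ε : Fin n → Bool)

lemma sg_sub_ne {E : Type} [Field E] [CharZero E] {δ δ' : Bool} (h : δ ≠ δ') :
    ((sg δ : ℚ) : E) - ((sg δ' : ℚ) : E) ≠ 0 := by
  rw [← Rat.cast_sub]
  have : sg δ - sg δ' ≠ 0 := by
    cases δ <;> cases δ'
    · exact absurd rfl h
    · norm_num [sg]
    · norm_num [sg]
    · exact absurd rfl h
  exact_mod_cast this

/-- the basis `v_j ⊗ b` of the part of the Betti realization of `M ⊗ ρ` fixed by `F_∞` -/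
noncomputable def b0 (p : Fin n × Fin h) : Fin n → E ⊗[ℚ] M.B :=
  fun i => v p.1 i ⊗ₜ b (ε p.1, p.2)

variable {b v ε}

lemma b0_mem (hb : ∀ δ k, M.frob (b (δ, k)) = sg δ • b (δ, k))
    (hv : ∀ j, ρ c (v j) = ((sg (ε j) : ℚ) : E) • v j) (p : Fin n × Fin h) :
    b0 b v ε p ∈ bPlus M c ρ := by
  intro i
  have h1 : ∀ j, LinearMap.toMatrix' (ρ c) i j • M.frob.baseChange E (b0 b v ε p j)
      = (LinearMap.toMatrix' (ρ c) i j * v p.1 j) ⊗ₜ M.frob (b (ε p.1, p.2)) := by
    intro j
    rw [b0, LinearMap.baseChange_tmul, TensorProduct.smul_tmul', smul_eq_mul]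
  rw [Finset.sum_congr rfl fun j _ => h1 j, ← TensorProduct.sum_tmul]
  have h2 : ∑ j, LinearMap.toMatrix' (ρ c) i j * v p.1 j = ρ c (v p.1) i := by
    conv_rhs => rw [← LinearMap.toMatrix'_mulVec (ρ c) (v p.1)]
    rfl
  rw [h2, hv, hb, Pi.smul_apply, smul_eq_mul, TensorProduct.tmul_smul, TensorProduct.smul_tmul',
    Algebra.smul_def, ← mul_assoc]
  have h3 : algebraMap ℚ E (sg (ε p.1)) * ((sg (ε p.1) : ℚ) : E) = 1 := by
    have : algebraMap ℚ E (sg (ε p.1)) = ((sg (ε p.1) : ℚ) : E) := eq_ratCast _ _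
    rw [this]
    exact_mod_cast sg_mul_self (ε p.1)
  rw [h3, one_mul]
  rfl

lemma repr_frob (hb : ∀ δ k, M.frob (b (δ, k)) = sg δ • b (δ, k)) (y : E ⊗[ℚ] M.B)
    (p : Bool × Fin h) : (b.baseChange E).repr (M.frob.baseChange E y) p
      = ((sg p.1 : ℚ) : E) * (b.baseChange E).repr y p := by
  classical
  conv_lhs => rw [← (b.baseChange E).sum_repr y]
  rw [map_sum, map_sum, Finsupp.coe_finsetSum, Finset.sum_apply, Finset.sum_eq_single p]
  · rw [map_smul, Basis.baseChange_apply, LinearMap.baseChange_tmul]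
    obtain ⟨δ, k⟩ := p
    rw [hb, TensorProduct.tmul_smul, TensorProduct.smul_tmul']
    have h1 : (sg δ • (1 : E)) ⊗ₜ[ℚ] b (δ, k) = ((sg δ : ℚ) : E) • (b.baseChange E) (δ, k) := by
      rw [Basis.baseChange_apply, TensorProduct.smul_tmul', Algebra.smul_def, smul_eq_mul,
        eq_ratCast]
    rw [h1, smul_smul, map_smul, Finsupp.smul_apply, Basis.repr_self, Finsupp.single_eq_same,
      smul_eq_mul, mul_one, mul_comm]
  · intro q _ hq
    rw [map_smul, Basis.baseChange_apply, LinearMap.baseChange_tmul]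
    obtain ⟨δ, k⟩ := q
    rw [hb, TensorProduct.tmul_smul, TensorProduct.smul_tmul']
    have h1 : (sg δ • (1 : E)) ⊗ₜ[ℚ] b (δ, k) = ((sg δ : ℚ) : E) • (b.baseChange E) (δ, k) := by
      rw [Basis.baseChange_apply, TensorProduct.smul_tmul', Algebra.smul_def, smul_eq_mul,
        eq_ratCast]
    rw [h1, smul_smul, map_smul, Finsupp.smul_apply, Basis.repr_self,
      Finsupp.single_eq_of_ne (Ne.symm hq), smul_zero]
  · intro hp
    exact absurd (Finset.mem_univ _) hp

lemma repr_b0 (p : Fin n × Fin h) (i : Fin n) (q : Bool × Fin h) :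
    (b.baseChange E).repr (b0 b v ε p i) q = if q = (ε p.1, p.2) then v p.1 i else 0 := by
  classical
  rw [b0, Basis.baseChange_repr_tmul]
  rw [Basis.repr_self, Finsupp.single_apply]
  by_cases hq : q = (ε p.1, p.2)
  · rw [if_pos hq, if_pos hq.symm, one_smul]
  · rw [if_neg hq, if_neg (Ne.symm hq), zero_smul]

lemma b0_indep : LinearIndependent E (b0 b v ε) := by
  classical
  rw [Fintype.linearIndependent_iff]
  intro y hy
  have h1 : ∀ (i : Fin n) (q : Bool × Fin h),
      ∑ p : Fin n × Fin h, y p * (if q = (ε p.1, p.2) then v p.1 i else 0) = 0 := by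
    intro i q
    have h2 := congrArg (fun z => (b.baseChange E).repr z q) (congrFun hy i)
    simp only [Finset.sum_apply, Pi.smul_apply, map_sum, map_smul, Finsupp.coe_finsetSum,
      Finsupp.smul_apply, repr_b0, smul_eq_mul, Pi.zero_apply, map_zero,
      Finsupp.coe_zero] at h2
    exact h2
  have h2 : ∀ q : Bool × Fin h, ∀ j, (if ε j = q.1 then y (j, q.2) else 0) = 0 := by
    intro q
    have h3 := Fintype.linearIndependent_iff.mp v.linearIndependent
    refine h3 _ ?_
    funext i
    rw [Finset.sum_apply, Pi.zero_apply]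
    refine Eq.trans ?_ (h1 i q)
    rw [Fintype.sum_prod_type]
    refine Finset.sum_congr rfl fun j _ => ?_
    rw [Finset.sum_eq_single q.2]
    · rw [Pi.smul_apply, smul_eq_mul]
      by_cases hq : ε j = q.1
      · have h5 : q = (ε j, q.2) := Prod.ext hq.symm rfl
        rw [if_pos hq, if_pos h5]
      · have h5 : ¬ q = (ε j, q.2) := fun h4 => hq (congrArg Prod.fst h4).symm
        rw [if_neg hq, if_neg h5, mul_zero, zero_mul]
    · intro k _ hk
      rw [if_neg, mul_zero]
      intro h4
      exact hk (congrArg Prod.snd h4).symm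
    · intro hp
      exact absurd (Finset.mem_univ _) hp
  rintro ⟨j, k⟩
  have h3 := h2 (ε j, k) j
  rwa [if_pos rfl] at h3

lemma b0_span (hb : ∀ δ k, M.frob (b (δ, k)) = sg δ • b (δ, k))
    (hv : ∀ j, ρ c (v j) = ((sg (ε j) : ℚ) : E) • v j) {x : Fin n → E ⊗[ℚ] M.B}
    (hx : x ∈ bPlus M c ρ) : x ∈ Submodule.span E (Set.range (b0 b v ε)) := by
  classical
  let X : Bool × Fin h → Fin n → E := fun q i => (b.baseChange E).repr (x i) q
  have h1 : ∀ q, ρ c (X q) = ((sg q.1 : ℚ) : E) • X q := by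
    intro q
    funext i
    have h2 := congrArg (fun z => (b.baseChange E).repr z q) (hx i)
    simp only [map_sum, map_smul, Finsupp.coe_finsetSum, Finset.sum_apply,
      Finsupp.smul_apply, repr_frob hb, smul_eq_mul] at h2
    have h3 : ρ c (X q) i = ∑ j, LinearMap.toMatrix' (ρ c) i j * X q j := by
      conv_lhs => rw [← LinearMap.toMatrix'_mulVec (ρ c) (X q)]
      rfl
    have h4 : ((sg q.1 : ℚ) : E) * ((sg q.1 : ℚ) : E) = 1 := by exact_mod_cast sg_mul_self q.1
    have h5 : ((sg q.1 : ℚ) : E) * ρ c (X q) i = X q i := by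
      change _ = (b.baseChange E).repr (x i) q
      rw [← h2, h3, Finset.mul_sum]
      refine Finset.sum_congr rfl fun j _ => ?_
      change _ * (_ * (b.baseChange E).repr (x j) q) = _
      ring
    rw [Pi.smul_apply, smul_eq_mul, ← h5, ← mul_assoc, h4, one_mul]
  have h2 : ∀ q j, ε j ≠ q.1 → v.repr (X q) j = 0 := by
    intro q j hj
    have h3 : v.repr (ρ c (X q)) j = ((sg (ε j) : ℚ) : E) * v.repr (X q) j := by
      conv_lhs => rw [← v.sum_repr (X q)]
      rw [map_sum, map_sum, Finsupp.coe_finsetSum, Finset.sum_apply, Finset.sum_eq_single j]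
      · rw [map_smul, hv, smul_smul, map_smul, Finsupp.smul_apply, Basis.repr_self,
          Finsupp.single_eq_same, smul_eq_mul, mul_one, mul_comm]
      · intro l _ hl
        rw [map_smul, hv, smul_smul, map_smul, Finsupp.smul_apply, Basis.repr_self,
          Finsupp.single_eq_of_ne (Ne.symm hl), smul_zero]
      · intro hp
        exact absurd (Finset.mem_univ _) hp
    rw [h1, map_smul, Finsupp.smul_apply, smul_eq_mul] at h3
    have h4 : (((sg q.1 : ℚ) : E) - ((sg (ε j) : ℚ) : E)) * v.repr (X q) j = 0 := by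
      rw [sub_mul, h3, sub_self]
    refine (mul_eq_zero.mp h4).resolve_left ?_
    exact sg_sub_ne (Ne.symm hj)
  have h3 : x = ∑ p : Fin n × Fin h, v.repr (X (ε p.1, p.2)) p.1 • b0 b v ε p := by
    funext i
    refine (b.baseChange E).ext_elem fun q => ?_
    rw [Finset.sum_apply, map_sum, Finsupp.coe_finsetSum, Finset.sum_apply]
    simp only [Pi.smul_apply, map_smul, Finsupp.smul_apply, repr_b0, smul_eq_mul]
    have h4 : (b.baseChange E).repr (x i) q = ∑ j, v.repr (X q) j * v j i := by
      change X q i = _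
      conv_lhs => rw [← v.sum_repr (X q)]
      rw [Finset.sum_apply]
      exact Finset.sum_congr rfl fun j _ => by rw [Pi.smul_apply, smul_eq_mul]
    rw [h4, Fintype.sum_prod_type]
    refine Finset.sum_congr rfl fun j _ => ?_
    rw [Finset.sum_eq_single q.2]
    · by_cases hq : ε j = q.1
      · have h5 : (ε j, q.2) = q := Prod.ext hq rfl
        simp only [h5, if_true]
      · have h5 : ¬ q = (ε j, q.2) := fun h4 => hq (congrArg Prod.fst h4).symm
        rw [if_neg h5, mul_zero, h2 q j hq, zero_mul]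
    · intro k _ hk
      rw [if_neg, mul_zero]
      intro h4
      exact hk (congrArg Prod.snd h4).symm
    · intro hp
      exact absurd (Finset.mem_univ _) hp
  rw [h3]
  exact Submodule.sum_mem _ fun p _ => Submodule.smul_mem _ _ (Submodule.subset_span ⟨p, rfl⟩)

/-- the basis -/
theorem exists_b0 (hb : ∀ δ k, M.frob (b (δ, k)) = sg δ • b (δ, k))
    (hv : ∀ j, ρ c (v j) = ((sg (ε j) : ℚ) : E) • v j) :
    ∃ β : Basis (Fin n × Fin h) E (bPlus M c ρ), ∀ p, (β p : Fin n → E ⊗[ℚ] M.B) = b0 b v ε p := by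
  classical
  let w : Fin n × Fin h → bPlus M c ρ := fun p => ⟨b0 b v ε p, b0_mem hb hv p⟩
  have h1 : LinearIndependent E w := by
    refine LinearIndependent.of_comp (bPlus M c ρ).subtype ?_
    exact b0_indep
  have h2 : ⊤ ≤ Submodule.span E (Set.range w) := by
    rintro ⟨x, hx⟩ _
    have h3 := b0_span hb hv hx
    have h4 : Submodule.span E (Set.range (b0 b v ε))
        = (Submodule.span E (Set.range w)).map (bPlus M c ρ).subtype := by
      rw [Submodule.map_span, ← Set.range_comp]
      rfl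
    rw [h4] at h3
    obtain ⟨y, hy, hyx⟩ := h3
    have : y = ⟨x, hx⟩ := Subtype.ext hyx
    rw [← this]
    exact hy
  exact ⟨Basis.mk h1 h2, fun p => by rw [Basis.mk_apply]⟩

end bplus

end Pool.Agent.K7.H1.DL
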